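import Pool.Agent.Lib.MP_6a3dac_ag.Fam.Defs

/-!
# Regular models near a prime and densities at the primes
-/

set_option autoImplicit false

namespace Pool.Agent.Lib.MP_6a3dac_ag.Fam

open MvPolynomial CategoryTheory Limits AlgebraicGeometry NumberField IsDedekindDomain Filter
open Pool.Agent.Lib.MP_6a3dac_ag.DNF Pool.Agent.Lib.MP_6a3dac_ag.Bert

/-- The morphism `π` to the spectrum of the number field `E` is the generic fibre of a scheme over
the ring of integers of `E` which is regular, proper and flat over an open neighbourhood of `P`. -/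
def HasModelAt (E : Type) [Field E] [NumberField E] (P : HeightOneSpectrum (𝓞 E))
    {X : Scheme.{0}} (π : X ⟶ Spec (CommRingCat.of E)) : Prop :=
  ∃ (U : (Spec (CommRingCat.of (𝓞 E))).Opens) (Y : Scheme.{0})
    (g : Y ⟶ Spec (CommRingCat.of (𝓞 E))),
    (⟨P.asIdeal, P.isPrime⟩ : PrimeSpectrum (𝓞 E)) ∈ U ∧ IsProper (g ∣_ U) ∧ Flat (g ∣_ U) ∧
    (∀ y : Y, g y ∈ U → IsRegularLocalRing (Y.presheaf.stalk y)) ∧
    ∃ e : pullback g (Spec.map (CommRingCat.ofHom (algebraMap (𝓞 E) E))) ≅ X,
      e.hom ≫ π = pullback.snd g (Spec.map (CommRingCat.ofHom (algebraMap (𝓞 E) E)))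

variable {E : Type} [Field E] [NumberField E] {ι : Type} {m c : ℕ}

/-- All fibres of the family over the points with the coordinates in the residue classes `x`
modulo `P ^ k` whose generic fibre is smooth have a regular model near `P`. -/
def LocGood (J : HomIdeal (MvPolynomial ι (𝓞 E)) (m + c + 1)) (P : HeightOneSpectrum (𝓞 E))
    (k : ℕ) (x : ι → 𝓞 E ⧸ P.asIdeal ^ k) : Prop :=
  ∀ a : ι → 𝓞 E, (∀ i, Ideal.Quotient.mk (P.asIdeal ^ k) (a i) = x i) →
    GenFibreSmooth (fib J a) →
    HasModelAt E P (hProjTo (bc (algebraMap (𝓞 E) E) (fib J a)))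

/-- The density at `P`: the measure of the set of the points of the affine space over the
completion of `𝓞 E` at `P` which have a neighbourhood in which all smooth fibres have a regular
model near `P`. -/
noncomputable def locDens (J : HomIdeal (MvPolynomial ι (𝓞 E)) (m + c + 1))
    (P : HeightOneSpectrum (𝓞 E)) : ℝ :=
  ⨆ k : ℕ, (Nat.card {x : ι → 𝓞 E ⧸ P.asIdeal ^ k // LocGood J P k x} : ℝ) /
    Nat.card (ι → 𝓞 E ⧸ P.asIdeal ^ k)

end Pool.Agent.Lib.MP_6a3dac_ag.Fam
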