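import Pool.Agent.Lib.MP_6a3dac_ag.Bert.Coprod

/-!
# Models which are regular over a set of primes
-/

set_option autoImplicit false

namespace Pool.Agent.Lib.MP_6a3dac_ag.Fam

open CategoryTheory Limits AlgebraicGeometry NumberField IsDedekindDomain

/-- The `E`-scheme `π` has a proper flat model over the integers which is regular at all points
which do not lie over a prime outside of `S`. -/
def ModelOn (E : Type) [Field E] (S : Set (HeightOneSpectrum (𝓞 E))) {X : Scheme.{0}}
    (π : X ⟶ Spec (CommRingCat.of E)) : Prop :=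
  ∃ (Y : Scheme.{0}) (g : Y ⟶ Spec (CommRingCat.of (𝓞 E))),
    IsProper g ∧ Flat g ∧
    (∀ y : Y, (∀ P : HeightOneSpectrum (𝓞 E), (g y).asIdeal = P.asIdeal → P ∈ S) →
      IsRegularLocalRing (Y.presheaf.stalk y)) ∧
    ∃ e : pullback g (Spec.map (CommRingCat.ofHom (algebraMap (𝓞 E) E))) ≅ X,
      e.hom ≫ π = pullback.snd g (Spec.map (CommRingCat.ofHom (algebraMap (𝓞 E) E)))

end Pool.Agent.Lib.MP_6a3dac_ag.Fam
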