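import Pool.Agent.Lib.MP_6a3dac_ag.Bert.Defs

/-!
# Families of projective schemes over the integers of a number field
-/

set_option autoImplicit false

namespace Pool.Agent.Lib.MP_6a3dac_ag.Fam

open MvPolynomial CategoryTheory Limits AlgebraicGeometry NumberField IsDedekindDomain Filter
open Pool.Agent.Lib.MP_6a3dac_ag.DNF Pool.Agent.Lib.MP_6a3dac_ag.Bert

/-- The homogeneous ideal generated by the image of a homogeneous ideal under a homomorphism of the
coefficient rings. -/
noncomputable def bc {R S : Type} [CommRing R] [CommRing S] {n : ℕ} (θ : R →+* S)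
    (J : HomIdeal R n) : HomIdeal S n where
  ideal := J.ideal.map (MvPolynomial.map θ)
  homog := by
    intro f hf i
    let _ := MvPolynomial.gradedAlgebra (σ := Fin n) (R := R)
    let _ := MvPolynomial.gradedAlgebra (σ := Fin n) (R := S)
    have h0 : J.ideal.map (MvPolynomial.map θ) = Ideal.span ((MvPolynomial.map θ) ''
        {g | g ∈ J.ideal ∧ ∃ j, g.IsHomogeneous j}) := by
      apply le_antisymm
      · rw [Ideal.map_le_iff_le_comap]
        intro g hg
        rw [Ideal.mem_comap, ← sum_homogeneousComponent g, map_sum]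
        exact Ideal.sum_mem _ fun j _ => Ideal.subset_span
          ⟨_, ⟨J.homog g hg j, j, homogeneousComponent_isHomogeneous j g⟩, rfl⟩
      · rw [Ideal.span_le]
        rintro _ ⟨g, ⟨hg, _⟩, rfl⟩
        exact Ideal.mem_map_of_mem _ hg
    have h1 : (J.ideal.map (MvPolynomial.map θ)).IsHomogeneous
        (homogeneousSubmodule (Fin n) S) := by
      rw [h0]
      apply Ideal.homogeneous_span
      rintro _ ⟨g, ⟨_, j, hj⟩, rfl⟩
      exact ⟨j, hj.map _⟩
    have h2 := h1 i hf
    rwa [show DirectSum.decompose (homogeneousSubmodule (Fin n) S) f i =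
      MvPolynomial.decomposition.decompose' f i from rfl,
      MvPolynomial.decomposition.decompose'_apply] at h2

section Local

variable {R σ : Type} [CommRing R] [DecidableEq σ]

/-- Where `U.s` does not vanish, the ideal `J` is generated by the equations of the chart `U` and
the polynomial `F`: the scheme defined by `J` is the hypersurface `F = 0` in the chart. -/
structure IsPres (J : Ideal (MvPolynomial σ R)) (U : Std R σ) (F : MvPolynomial σ R) : Prop where
  mem : ∀ κ, U.g κ ∈ J
  memF : F ∈ J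
  le : ∀ f ∈ J, U.s * f ∈ Ideal.span (insert F (Set.range U.g))

variable [Fintype σ]

/-- The scheme defined by `J` is smooth of relative dimension `m` over `R` at the point `𝔮`: near
this point it is a hypersurface `F = 0` with a nonzero differential in a smooth scheme of relative
dimension `m + 1`. -/
def SmoothPt (m : ℕ) (J 𝔮 : Ideal (MvPolynomial σ R)) : Prop :=
  ∃ (U : Std R σ) (F : MvPolynomial σ R), IsPres J U F ∧ U.T.card = m + 1 ∧ U.h ∉ 𝔮 ∧
    ∃ e ∈ U.T, U.vf e F ∉ 𝔮

/-- The scheme defined by `J` is smooth of relative dimension `m` over `R` at the point `𝔮` or has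
a nondegenerate double point there in its fibre: near this point it is a hypersurface `F = 0` in a
smooth scheme of relative dimension `m + 1`, and at the point the differential of `F` is not zero
or the Hessian matrix of `F` is invertible. -/
def NodalPt (m : ℕ) (J 𝔮 : Ideal (MvPolynomial σ R)) : Prop :=
  ∃ (U : Std R σ) (F : MvPolynomial σ R), IsPres J U F ∧ U.T.card = m + 1 ∧ U.h ∉ 𝔮 ∧
    ((∃ e ∈ U.T, U.vf e F ∉ 𝔮) ∨ (U.hess F).det ∉ 𝔮)

omit [Fintype σ] [DecidableEq σ] in
/-- The ideal `J` contains `c` elements which are linearly independent modulo `𝔮²`. -/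
def TanPt (c : ℕ) (J 𝔮 : Ideal (MvPolynomial σ R)) : Prop :=
  ∃ f : Fin c → MvPolynomial σ R, (∀ k, f k ∈ J) ∧
    ∀ b : Fin c → MvPolynomial σ R, ∑ k, b k * f k ∈ 𝔮 ^ 2 → ∀ k, b k ∈ 𝔮

end Local

section Fibre

variable {E : Type} [Field E] [NumberField E]

/-- The generic fibre of `Proj 𝓞_E[x] / J` is smooth and has a regular proper flat model. -/
def HasModel {n : ℕ} (J : HomIdeal (𝓞 E) (n + 1)) : Prop :=
  Smooth (hProjTo (bc (algebraMap (𝓞 E) E) J)) ∧
    HasRegularModel E (hProjTo (bc (algebraMap (𝓞 E) E) J))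

variable {m c : ℕ}

/-- The generic fibre is smooth of dimension `m`. -/
def GenFibreSmooth (J : HomIdeal (𝓞 E) (m + c + 1)) : Prop :=
  ∀ (i : Fin (m + c + 1)) (𝔮 : Ideal (MvPolynomial {l : Fin (m + c + 1) // l ≠ i} (𝓞 E))),
    𝔮.IsPrime → dId J i ≤ 𝔮 → (∀ z : 𝓞 E, C z ∈ 𝔮 → z = 0) → SmoothPt m (dId J i) 𝔮

/-- The points over `P` are smooth of relative dimension `m` or nondegenerate double points. -/
def NodalOver (P : HeightOneSpectrum (𝓞 E)) (J : HomIdeal (𝓞 E) (m + c + 1)) : Prop :=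
  ∀ (i : Fin (m + c + 1)) (𝔮 : Ideal (MvPolynomial {l : Fin (m + c + 1) // l ≠ i} (𝓞 E))),
    𝔮.IsPrime → dId J i ≤ 𝔮 → P.asIdeal.map C ≤ 𝔮 → NodalPt m (dId J i) 𝔮

/-- At the points over `P` the ideal `J` contains `c` elements which are linearly independent in
the cotangent space of the projective space `ℙ^(m + c)`. -/
def TanOver (P : HeightOneSpectrum (𝓞 E)) (J : HomIdeal (𝓞 E) (m + c + 1)) : Prop :=
  ∀ (i : Fin (m + c + 1)) (𝔮 : Ideal (MvPolynomial {l : Fin (m + c + 1) // l ≠ i} (𝓞 E))),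
    𝔮.IsPrime → dId J i ≤ 𝔮 → P.asIdeal.map C ≤ 𝔮 → TanPt c (dId J i) 𝔮

end Fibre

section Family

variable {E : Type} [Field E] [NumberField E] {ι : Type} {m c : ℕ}

/-- The fibre of the family over the point with the coordinates `a`. -/
noncomputable def fib {R : Type} [CommRing R] {n : ℕ} (J : HomIdeal (MvPolynomial ι R) n)
    (a : ι → R) : HomIdeal R n :=
  bc (eval a) J

/-- The generic fibre of the family is smooth of dimension `m`. -/
def GenSmooth (J : HomIdeal (MvPolynomial ι (𝓞 E)) (m + c + 1)) : Prop :=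
  ∀ (i : Fin (m + c + 1))
    (𝔮 : Ideal (MvPolynomial {l : Fin (m + c + 1) // l ≠ i} (MvPolynomial ι (𝓞 E)))),
    𝔮.IsPrime → dId J i ≤ 𝔮 → (∀ p : MvPolynomial ι (𝓞 E), C p ∈ 𝔮 → p = 0) →
      SmoothPt m (dId J i) 𝔮

/-- Outside of a closed subset of codimension at least two of the affine space over `E`, the fibres
of the family have at most nondegenerate double points: there are polynomials `g`, `G` without a
common factor such that this holds at all points in characteristic zero where `g` or `G` does not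
vanish. -/
def NodalCodim (J : HomIdeal (MvPolynomial ι (𝓞 E)) (m + c + 1)) : Prop :=
  ∃ g G : MvPolynomial ι (𝓞 E),
    IsRelPrime (MvPolynomial.map (algebraMap (𝓞 E) E) g) (MvPolynomial.map (algebraMap (𝓞 E) E) G) ∧
    ∀ (i : Fin (m + c + 1))
      (𝔮 : Ideal (MvPolynomial {l : Fin (m + c + 1) // l ≠ i} (MvPolynomial ι (𝓞 E)))),
      𝔮.IsPrime → dId J i ≤ 𝔮 → (∀ z : 𝓞 E, C (C z) ∈ 𝔮 → z = 0) → (C g ∉ 𝔮 ∨ C G ∉ 𝔮) →
        NodalPt m (dId J i) 𝔮

/-- The family has at most nondegenerate double points over the point `a` modulo `P`. -/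
def NodalAbove (P : HeightOneSpectrum (𝓞 E)) (J : HomIdeal (MvPolynomial ι (𝓞 E)) (m + c + 1))
    (a : ι → 𝓞 E) : Prop :=
  ∀ (i : Fin (m + c + 1))
    (𝔮 : Ideal (MvPolynomial {l : Fin (m + c + 1) // l ≠ i} (MvPolynomial ι (𝓞 E)))),
    𝔮.IsPrime → dId J i ≤ 𝔮 → (∀ p : MvPolynomial ι (𝓞 E), C p ∈ 𝔮 ↔ eval a p ∈ P.asIdeal) →
      NodalPt m (dId J i) 𝔮

/-- The local condition at `P`. -/
def LocOK (P : HeightOneSpectrum (𝓞 E)) (J : HomIdeal (MvPolynomial ι (𝓞 E)) (m + c + 1))
    (a : ι → 𝓞 E) : Prop :=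
  NodalAbove P J a ∨ TanOver P (fib J a)

/-- The classes modulo `P²` which satisfy the local condition at `P`. -/
def okClasses (J : HomIdeal (MvPolynomial ι (𝓞 E)) (m + c + 1)) (P : HeightOneSpectrum (𝓞 E)) :
    Set (ι → 𝓞 E ⧸ P.asIdeal ^ 2) :=
  {x | ∃ a : ι → 𝓞 E, (∀ i, Ideal.Quotient.mk (P.asIdeal ^ 2) (a i) = x i) ∧ LocOK P J a}

/-- The local density at `P`. -/
noncomputable def locDensity (J : HomIdeal (MvPolynomial ι (𝓞 E)) (m + c + 1))
    (P : HeightOneSpectrum (𝓞 E)) : ℝ :=
  (Nat.card (okClasses J P) : ℝ) / Nat.card (ι → 𝓞 E ⧸ P.asIdeal ^ 2)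

end Family

end Pool.Agent.Lib.MP_6a3dac_ag.Fam
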