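import Mathlib

/-!
# Spreading out isomorphisms of generic fibres

Two schemes over the spectrum of a domain `R`, proper (or of finite presentation and
quasi-separated) over an open subset, with isomorphic generic fibres, are isomorphic over a
basic open subset `D t`, `t ≠ 0`.
-/

set_option autoImplicit false

namespace Pool.Agent.Lib.MP_6a3dac_ag.Fam.GL2

universe u
open CategoryTheory Limits AlgebraicGeometry

variable {R : Type u} [CommRing R]

/-- The nonzero multiples of `s`, ordered by divisibility (multiples are smaller). -/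
structure Idx (s : R) : Type u where
  /-- the element -/
  val : R
  ne_zero : val ≠ 0
  dvd : s ∣ val

instance (s : R) : Preorder (Idx s) where
  le a b := b.val ∣ a.val
  le_refl a := dvd_refl a.val
  le_trans _ _ _ h₁ h₂ := dvd_trans h₂ h₁

theorem Idx.le_def {s : R} {a b : Idx s} : a ≤ b ↔ b.val ∣ a.val := Iff.rfl

theorem idx_nonempty {s : R} (hs : s ≠ 0) : Nonempty (Idx s) := ⟨⟨s, hs, dvd_refl s⟩⟩

instance [IsDomain R] (s : R) : IsDirected (Idx s) (· ≥ ·) :=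
  ⟨fun a b => ⟨⟨a.val * b.val, mul_ne_zero a.ne_zero b.ne_zero, a.dvd.mul_right _⟩,
    Idx.le_def.mpr (dvd_mul_right _ _), Idx.le_def.mpr (dvd_mul_left _ _)⟩⟩

theorem isCofiltered_idx [IsDomain R] {s : R} (hs : s ≠ 0) : IsCofiltered (Idx s) :=
  haveI := idx_nonempty hs
  isCofiltered_of_directed_ge_nonempty _

/-- The basic open subset of the spectrum. -/
def D (t : R) : (Spec (CommRingCat.of R)).Opens := PrimeSpectrum.basicOpen t

theorem D_le {a b : R} (h : b ∣ a) : D a ≤ D b :=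
  (PrimeSpectrum.basicOpen_le_basicOpen_iff _ _).mpr
    (Ideal.le_radical (Ideal.mem_span_singleton.mpr h))

theorem D_mono {s : R} {a b : Idx s} (h : a ≤ b) : D a.val ≤ D b.val := D_le h

theorem isAffineOpen_D (t : R) : IsAffineOpen (D t) :=
  IsAffineOpen.Spec_basicOpen (R := CommRingCat.of R) t

variable {Y : Scheme.{u}} (f : Y ⟶ Spec (CommRingCat.of R))

/-- The diagram of the open subschemes over the basic open subsets. -/
noncomputable def dia (s : R) : Idx s ⥤ Scheme.{u} where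
  obj t := (f ⁻¹ᵁ D t.val).toScheme
  map h := Y.homOfLE (f.preimage_mono (D_mono h.le))
  map_id _ := Y.homOfLE_rfl _
  map_comp _ _ := (Y.homOfLE_homOfLE _ _).symm

/-- The inclusion. -/
noncomputable def diaι (s : R) (a : Idx s) : (dia f s).obj a ⟶ Y := (f ⁻¹ᵁ D a.val).ι

instance (s : R) (a : Idx s) : IsOpenImmersion (diaι f s a) :=
  inferInstanceAs (IsOpenImmersion (f ⁻¹ᵁ D a.val).ι)

@[reassoc (attr := simp)]
theorem map_diaι (s : R) {a b : Idx s} (h : a ⟶ b) :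
    (dia f s).map h ≫ diaι f s b = diaι f s a :=
  Y.homOfLE_ι (f.preimage_mono (D_mono h.le))

theorem isAffineHom_D_ι (t : R) : IsAffineHom (D t).ι := by
  have := isAffineOpen_D t
  have h : IsAffine (D t).toScheme := this
  infer_instance

theorem isAffineHom_ι (t : R) : IsAffineHom (f ⁻¹ᵁ D t).ι := by
  have h := isAffineHom_D_ι t
  exact MorphismProperty.of_isPullback (P := @IsAffineHom)
    (isPullback_morphismRestrict f (D t)) h

instance (s : R) (a : Idx s) : IsAffineHom (diaι f s a) := isAffineHom_ι f a.val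

instance isAffineHom_map (s : R) {a b : Idx s} (h : a ⟶ b) :
    IsAffineHom ((dia f s).map h) := by
  have h2 : IsAffineHom ((dia f s).map h ≫ diaι f s b) := by
    rw [map_diaι]
    infer_instance
  have h3 : IsSeparated (diaι f s b) := inferInstance
  exact MorphismProperty.of_postcomp (W := @IsAffineHom) (W' := @IsSeparated) _ _ h3 h2

variable (K : Type u) [Field K] [Algebra R K] [IsFractionRing R K]

/-- The inclusion of the generic point. -/
noncomputable abbrev gen : Spec (CommRingCat.of K) ⟶ Spec (CommRingCat.of R) :=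
  Spec.map (CommRingCat.ofHom (algebraMap R K))

instance : Mono (gen (R := R) K) := by
  have := IsPreimmersion.of_isLocalization (R := R) (S := K) (nonZeroDivisors R)
  infer_instance

theorem gen_preimage [IsDomain R] {t : R} (ht : t ≠ 0) : gen (R := R) K ⁻¹ᵁ D t = ⊤ := by
  have h1 : gen (R := R) K ⁻¹ᵁ D t = PrimeSpectrum.basicOpen (algebraMap R K t) := rfl
  have h2 : IsUnit (algebraMap R K t) :=
    isUnit_iff_ne_zero.mpr (by simpa using ht)
  rw [h1]
  exact top_le_iff.mp fun x _ hx => x.2.ne_top (Ideal.eq_top_of_isUnit_mem _ hx h2)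

theorem exists_lift [IsDomain R] {Z : Scheme.{u}} (h : Z ⟶ Spec (CommRingCat.of R))
    (hh : ∀ x : R, x ≠ 0 → h ⁻¹ᵁ D x = ⊤) : ∃ l : Z ⟶ Spec (CommRingCat.of K), l ≫ gen K = h := by
  let ψ : CommRingCat.of R ⟶ Γ(Z, ⊤) := (Scheme.ΓSpecIso (CommRingCat.of R)).inv ≫ h.appTop
  have hψ : Z.toSpecΓ ≫ Spec.map ψ = h := by
    rw [Spec.map_comp, ← Scheme.toSpecΓ_naturality_assoc, toSpecΓ_SpecMap_ΓSpecIso_inv,
      Category.comp_id]
  have hu : ∀ x : R, x ≠ 0 → IsUnit (ψ x) := by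
    intro x hx
    have h1 := hh x hx
    rw [← hψ] at h1
    have h2 : Z.basicOpen (ψ x) = ⊤ :=
      (Scheme.toSpecΓ_preimage_basicOpen Z (ψ x)).symm.trans h1
    refine RingedSpace.isUnit_of_isUnit_germ _ _ _ fun z hz => ?_
    exact (Z.mem_basicOpen_top (ψ x) z).mp (h2.ge (Set.mem_univ z))
  let χ : CommRingCat.of K ⟶ Γ(Z, ⊤) :=
    CommRingCat.ofHom (IsLocalization.lift (M := nonZeroDivisors R) (g := ψ.hom)
      (fun y => hu _ (nonZeroDivisors.ne_zero y.2)))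
  refine ⟨Z.toSpecΓ ≫ Spec.map χ, ?_⟩
  rw [Category.assoc, ← Spec.map_comp]
  have : CommRingCat.ofHom (algebraMap R K) ≫ χ = ψ := by
    ext x
    exact IsLocalization.lift_eq _ _
  rw [this, hψ]

variable [IsDomain R]

theorem fst_preimage {t : R} (ht : t ≠ 0) :
    pullback.fst f (gen K) ⁻¹ᵁ (f ⁻¹ᵁ D t) = ⊤ := by
  rw [← Scheme.Hom.comp_preimage, pullback.condition, Scheme.Hom.comp_preimage,
    gen_preimage K ht]
  rfl

theorem range_fst {t : R} (ht : t ≠ 0) :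
    Set.range (pullback.fst f (gen K)) ⊆ Set.range (f ⁻¹ᵁ D t).ι := by
  rintro _ ⟨z, rfl⟩
  rw [Scheme.Opens.range_ι]
  exact (fst_preimage f K ht).ge (Set.mem_univ z)

/-- The morphism from the generic fibre to the open subscheme over a basic open subset. -/
noncomputable def toDia (s : R) (a : Idx s) : pullback f (gen K) ⟶ (dia f s).obj a :=
  IsOpenImmersion.lift (diaι f s a) (pullback.fst f (gen K)) (range_fst f K a.ne_zero)

@[reassoc (attr := simp)]
theorem toDia_ι (s : R) (a : Idx s) :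
    toDia f K s a ≫ diaι f s a = pullback.fst f (gen K) :=
  IsOpenImmersion.lift_fac _ _ _

/-- The generic fibre is a cone over the diagram. -/
noncomputable def cone (s : R) : Cone (dia f s) where
  pt := pullback f (gen K)
  π :=
    { app := fun t => toDia f K s t
      naturality := by
        intro a b h
        refine (cancel_mono (diaι f s b)).mp ?_
        simp }

omit [IsDomain R] in
theorem cone_w_ι {s : R} (c : Cone (dia f s)) {a b : Idx s} (h : a ≤ b) :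
    c.π.app a ≫ diaι f s a = c.π.app b ≫ diaι f s b := by
  rw [← c.w (homOfLE h), Category.assoc, map_diaι]

omit [IsDomain R] in
theorem diaι_preimage {s : R} (a : Idx s) : (diaι f s a ≫ f) ⁻¹ᵁ D a.val = ⊤ := by
  rw [Scheme.Hom.comp_preimage]
  exact Scheme.Opens.ι_preimage_self _

/-- The generic fibre is the limit of the open subschemes over the basic open subsets. -/
noncomputable def isLimitCone {s : R} (hs : s ≠ 0) : IsLimit (cone f K s) := by
  refine IsLimit.ofExistsUnique fun c => ?_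
  let t₀ : Idx s := ⟨s, hs, dvd_refl s⟩
  let u : c.pt ⟶ Y := c.π.app t₀ ≫ diaι f s t₀
  have hu : ∀ j : Idx s, c.π.app j ≫ diaι f s j = u := fun j =>
    cone_w_ι f c (Idx.le_def.mpr j.dvd)
  have hh : ∀ x : R, x ≠ 0 → (u ≫ f) ⁻¹ᵁ D x = ⊤ := by
    intro x hx
    let j : Idx s := ⟨s * x, mul_ne_zero hs hx, dvd_mul_right _ _⟩
    have h1 : (u ≫ f) ⁻¹ᵁ D j.val = ⊤ := by
      rw [← hu j, Category.assoc, Scheme.Hom.comp_preimage, diaι_preimage]
      rfl
    exact top_le_iff.mp (h1.ge.trans ((u ≫ f).preimage_mono (D_le (dvd_mul_left x s))))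
  obtain ⟨l, hl⟩ := exists_lift K (u ≫ f) hh
  refine ⟨pullback.lift u l hl.symm, fun j => ?_, fun l' hl' => ?_⟩
  · refine (cancel_mono (diaι f s j)).mp ?_
    rw [hu j]
    refine (Category.assoc _ _ _).trans ?_
    exact (congrArg (pullback.lift u l hl.symm ≫ ·) (toDia_ι f K s j)).trans
      (pullback.lift_fst _ _ _)
  · refine (cancel_mono (pullback.fst f (gen K))).mp ?_
    rw [pullback.lift_fst]
    refine (congrArg (l' ≫ ·) (toDia_ι f K s t₀).symm).trans ?_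
    refine (Category.assoc _ _ _).symm.trans ?_
    exact congrArg (· ≫ diaι f s t₀) (hl' t₀)


/-! ### Spreading out morphisms -/

variable {Y₁ Y₂ : Scheme.{u}} (f₁ : Y₁ ⟶ Spec (CommRingCat.of R))
  (f₂ : Y₂ ⟶ Spec (CommRingCat.of R))

omit [IsDomain R] in
/-- A morphism over the base from a part over a basic open subset lands over it. -/
theorem exists_lift_open {s : R} (a : Idx s) {Z : Scheme.{u}} (g : Z ⟶ Y₂)
    (hg : (g ≫ f₂) ⁻¹ᵁ D a.val = ⊤) : ∃ k : Z ⟶ (dia f₂ s).obj a, k ≫ diaι f₂ s a = g := by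
  have h1 : Set.range g ⊆ Set.range (diaι f₂ s a) := by
    rintro _ ⟨z, rfl⟩
    have h2 : Set.range (diaι f₂ s a) = _ := Scheme.Opens.range_ι (f₂ ⁻¹ᵁ D a.val)
    rw [h2]
    exact hg.ge (Set.mem_univ z)
  exact ⟨IsOpenImmersion.lift (diaι f₂ s a) g h1, IsOpenImmersion.lift_fac _ _ _⟩

omit [IsDomain R] in
theorem preimage_of_dvd {s : R} (a b : Idx s) (h : a ≤ b) {Z : Scheme.{u}}
    (g : Z ⟶ Spec (CommRingCat.of R)) (hg : g ⁻¹ᵁ D a.val = ⊤) : g ⁻¹ᵁ D b.val = ⊤ :=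
  top_le_iff.mp (hg.ge.trans (g.preimage_mono (D_mono h)))

/-- Morphisms from the generic fibre spread out. -/
theorem exists_extend {s : R} (hs : s ≠ 0)
    [∀ t, CompactSpace ((dia f₁ s).obj t)] [∀ t, QuasiSeparatedSpace ((dia f₁ s).obj t)]
    [LocallyOfFinitePresentation (diaι f₂ s ⟨s, hs, dvd_refl s⟩ ≫ f₂)]
    (a : pullback f₁ (gen K) ⟶ Y₂) (ha : a ≫ f₂ = pullback.fst f₁ (gen K) ≫ f₁) :
    ∃ (t : Idx s) (g : (dia f₁ s).obj t ⟶ Y₂), toDia f₁ K s t ≫ g = a ∧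
      g ≫ f₂ = diaι f₁ s t ≫ f₁ := by
  have := isCofiltered_idx hs
  let t₀ : Idx s := ⟨s, hs, dvd_refl s⟩
  obtain ⟨a', ha'⟩ : ∃ k : pullback f₁ (gen K) ⟶ (dia f₂ s).obj t₀, k ≫ diaι f₂ s t₀ = a := by
    refine exists_lift_open f₂ t₀ a ?_
    rw [ha, Scheme.Hom.comp_preimage]
    exact fst_preimage f₁ K hs
  let τ : dia f₁ s ⟶ (Functor.const (Idx s)).obj (Spec (CommRingCat.of R)) :=
    { app := fun t => diaι f₁ s t ≫ f₁
      naturality := by
        intro x y h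
        simp }
  obtain ⟨t, g, hg1, hg2⟩ := Scheme.exists_π_app_comp_eq_of_locallyOfFinitePresentation
    (dia f₁ s) τ (diaι f₂ s t₀ ≫ f₂) (cone f₁ K s) (isLimitCone f₁ K hs) a' (by
      ext t
      have h1 : (toDia f₁ K s t ≫ diaι f₁ s t) ≫ f₁ = a' ≫ diaι f₂ s t₀ ≫ f₂ := by
        rw [toDia_ι, ← ha, ← ha', Category.assoc]
      exact (Category.assoc _ _ _).symm.trans h1)
  refine ⟨t, g ≫ diaι f₂ s t₀, ?_, ?_⟩
  · rw [← ha', ← hg1]
    rfl
  · rw [Category.assoc, hg2]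

/-- Morphisms which agree on the generic fibre agree over an open subset. -/
theorem exists_eq {s : R} (hs : s ≠ 0)
    [∀ t, CompactSpace ((dia f₁ s).obj t)]
    [LocallyOfFiniteType (diaι f₂ s ⟨s, hs, dvd_refl s⟩ ≫ f₂)]
    (t : Idx s) (g g' : (dia f₁ s).obj t ⟶ Y₂) (hg : g ≫ f₂ = diaι f₁ s t ≫ f₁)
    (hg' : g' ≫ f₂ = diaι f₁ s t ≫ f₁) (h : toDia f₁ K s t ≫ g = toDia f₁ K s t ≫ g') :
    ∃ (t' : Idx s) (h : t' ⟶ t), (dia f₁ s).map h ≫ g = (dia f₁ s).map h ≫ g' := by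
  have := isCofiltered_idx hs
  let t₀ : Idx s := ⟨s, hs, dvd_refl s⟩
  have h0 : (diaι f₁ s t ≫ f₁) ⁻¹ᵁ D t₀.val = ⊤ :=
    preimage_of_dvd t t₀ (Idx.le_def.mpr t.dvd) _ (diaι_preimage f₁ t)
  obtain ⟨k, hk⟩ := exists_lift_open f₂ t₀ g (by rw [hg]; exact h0)
  obtain ⟨k', hk'⟩ := exists_lift_open f₂ t₀ g' (by rw [hg']; exact h0)
  let τ : dia f₁ s ⟶ (Functor.const (Idx s)).obj (Spec (CommRingCat.of R)) :=
    { app := fun t => diaι f₁ s t ≫ f₁
      naturality := by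
        intro x y h
        simp }
  obtain ⟨t', h', he⟩ := Scheme.exists_hom_comp_eq_comp_of_locallyOfFiniteType
    (dia f₁ s) τ (diaι f₂ s t₀ ≫ f₂) (cone f₁ K s) (isLimitCone f₁ K hs) (i := t) k k'
    (by
      change diaι f₁ s t ≫ f₁ = k ≫ diaι f₂ s t₀ ≫ f₂
      rw [← Category.assoc k, hk, hg])
    (by
      change diaι f₁ s t ≫ f₁ = k' ≫ diaι f₂ s t₀ ≫ f₂
      rw [← Category.assoc k', hk', hg'])
    (by
      change toDia f₁ K s t ≫ k = toDia f₁ K s t ≫ k'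
      rw [← cancel_mono (diaι f₂ s t₀), Category.assoc, Category.assoc, hk, hk', h])
  refine ⟨t', h', ?_⟩
  rw [← hk, ← hk', ← Category.assoc, he, Category.assoc]

omit [IsDomain R] in
/-- Morphisms over the base restrict to the parts over a basic open subset. -/
theorem exists_restrict {s : R} (a b : Idx s) (h : a ≤ b) (g : (dia f₁ s).obj b ⟶ Y₂)
    (hg : g ≫ f₂ = diaι f₁ s b ≫ f₁) :
    ∃ k : (dia f₁ s).obj a ⟶ (dia f₂ s).obj a,
      k ≫ diaι f₂ s a = (dia f₁ s).map (homOfLE h) ≫ g := by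
  refine exists_lift_open f₂ a _ ?_
  rw [Category.assoc, hg, map_diaι_assoc]
  exact diaι_preimage f₁ a

@[reassoc (attr := simp)]
theorem toDia_map {s : R} {a b : Idx s} (h : a ⟶ b) :
    toDia f K s a ≫ (dia f s).map h = toDia f K s b := by
  rw [← cancel_mono (diaι f s b), Category.assoc, map_diaι, toDia_ι, toDia_ι]

/-- Isomorphisms of the generic fibres spread out, version with the diagrams. -/
theorem exists_iso_dia {s : R} (hs : s ≠ 0)
    [∀ t, CompactSpace ((dia f₁ s).obj t)] [∀ t, QuasiSeparatedSpace ((dia f₁ s).obj t)]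
    [∀ t, CompactSpace ((dia f₂ s).obj t)] [∀ t, QuasiSeparatedSpace ((dia f₂ s).obj t)]
    [LocallyOfFinitePresentation (diaι f₁ s ⟨s, hs, dvd_refl s⟩ ≫ f₁)]
    [LocallyOfFinitePresentation (diaι f₂ s ⟨s, hs, dvd_refl s⟩ ≫ f₂)]
    (e : pullback f₁ (gen K) ≅ pullback f₂ (gen K))
    (he : e.hom ≫ pullback.snd f₂ (gen K) = pullback.snd f₁ (gen K)) :
    ∃ (t : Idx s) (φ : (dia f₁ s).obj t ≅ (dia f₂ s).obj t),
      φ.hom ≫ diaι f₂ s t ≫ f₂ = diaι f₁ s t ≫ f₁ ∧
      toDia f₁ K s t ≫ φ.hom = e.hom ≫ toDia f₂ K s t := by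
  have he' : e.inv ≫ pullback.snd f₁ (gen K) = pullback.snd f₂ (gen K) := by
    rw [← he, Iso.inv_hom_id_assoc]
  obtain ⟨t₁, g₁, h11, h12⟩ := exists_extend K f₁ f₂ hs (e.hom ≫ pullback.fst f₂ (gen K)) (by
    rw [Category.assoc, pullback.condition, ← Category.assoc, he, pullback.condition])
  obtain ⟨t₂, g₂, h21, h22⟩ := exists_extend K f₂ f₁ hs (e.inv ≫ pullback.fst f₁ (gen K)) (by
    rw [Category.assoc, pullback.condition, ← Category.assoc, he', pullback.condition])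
  let t : Idx s := ⟨t₁.val * t₂.val, mul_ne_zero t₁.ne_zero t₂.ne_zero, t₁.dvd.mul_right _⟩
  have ht1 : t ≤ t₁ := Idx.le_def.mpr (dvd_mul_right _ _)
  have ht2 : t ≤ t₂ := Idx.le_def.mpr (dvd_mul_left _ _)
  obtain ⟨k₁, hk₁⟩ := exists_restrict f₁ f₂ t t₁ ht1 g₁ h12
  obtain ⟨k₂, hk₂⟩ := exists_restrict f₂ f₁ t t₂ ht2 g₂ h22
  have hT1 : toDia f₁ K s t ≫ k₁ = e.hom ≫ toDia f₂ K s t := by
    rw [← cancel_mono (diaι f₂ s t), Category.assoc, hk₁, toDia_map_assoc, h11, Category.assoc,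
      toDia_ι]
  have hT2 : toDia f₂ K s t ≫ k₂ = e.inv ≫ toDia f₁ K s t := by
    rw [← cancel_mono (diaι f₁ s t), Category.assoc, hk₂, toDia_map_assoc, h21, Category.assoc,
      toDia_ι]
  have hf1 : k₁ ≫ diaι f₂ s t ≫ f₂ = diaι f₁ s t ≫ f₁ := by
    rw [← Category.assoc, hk₁, Category.assoc, h12, map_diaι_assoc]
  have hf2 : k₂ ≫ diaι f₁ s t ≫ f₁ = diaι f₂ s t ≫ f₂ := by
    rw [← Category.assoc, hk₂, Category.assoc, h22, map_diaι_assoc]
  obtain ⟨a, ha, hae⟩ := exists_eq K f₁ f₁ hs t (k₁ ≫ k₂ ≫ diaι f₁ s t) (diaι f₁ s t)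
    (by simp only [Category.assoc, hf2, hf1]) rfl
    (by rw [← Category.assoc, hT1, Category.assoc, ← Category.assoc (toDia f₂ K s t), hT2,
          Category.assoc, Iso.hom_inv_id_assoc])
  obtain ⟨b, hb, hbe⟩ := exists_eq K f₂ f₂ hs t (k₂ ≫ k₁ ≫ diaι f₂ s t) (diaι f₂ s t)
    (by simp only [Category.assoc, hf2, hf1]) rfl
    (by rw [← Category.assoc, hT2, Category.assoc, ← Category.assoc (toDia f₁ K s t), hT1,
          Category.assoc, Iso.inv_hom_id_assoc])
  let c : Idx s := ⟨a.val * b.val, mul_ne_zero a.ne_zero b.ne_zero, a.dvd.mul_right _⟩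
  have hca : c ≤ a := Idx.le_def.mpr (dvd_mul_right _ _)
  have hcb : c ≤ b := Idx.le_def.mpr (dvd_mul_left _ _)
  have hct : c ≤ t := hca.trans ha.le
  have hA : (dia f₁ s).map (homOfLE hct) ≫ k₁ ≫ k₂ ≫ diaι f₁ s t = diaι f₁ s c := by
    have h1 : homOfLE hct = homOfLE hca ≫ ha := Subsingleton.elim _ _
    rw [h1, Functor.map_comp, Category.assoc, hae, map_diaι, map_diaι]
  have hB : (dia f₂ s).map (homOfLE hct) ≫ k₂ ≫ k₁ ≫ diaι f₂ s t = diaι f₂ s c := by
    have h1 : homOfLE hct = homOfLE hcb ≫ hb := Subsingleton.elim _ _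
    rw [h1, Functor.map_comp, Category.assoc, hbe, map_diaι, map_diaι]
  obtain ⟨l₁, hl₁⟩ := exists_restrict f₁ f₂ c t hct (k₁ ≫ diaι f₂ s t)
    (by rw [Category.assoc, hf1])
  obtain ⟨l₂, hl₂⟩ := exists_restrict f₂ f₁ c t hct (k₂ ≫ diaι f₁ s t)
    (by rw [Category.assoc, hf2])
  have hm1 : l₁ ≫ (dia f₂ s).map (homOfLE hct) = (dia f₁ s).map (homOfLE hct) ≫ k₁ := by
    rw [← cancel_mono (diaι f₂ s t), Category.assoc, map_diaι, hl₁, Category.assoc]
  have hm2 : l₂ ≫ (dia f₁ s).map (homOfLE hct) = (dia f₂ s).map (homOfLE hct) ≫ k₂ := by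
    rw [← cancel_mono (diaι f₁ s t), Category.assoc, map_diaι, hl₂, Category.assoc]
  refine ⟨c, ⟨l₁, l₂, ?_, ?_⟩, ?_, ?_⟩
  · rw [← cancel_mono (diaι f₁ s c), Category.assoc, hl₂, ← Category.assoc, hm1, Category.assoc,
      hA, Category.id_comp]
  · rw [← cancel_mono (diaι f₂ s c), Category.assoc, hl₁, ← Category.assoc, hm2, Category.assoc,
      hB, Category.id_comp]
  · rw [← Category.assoc, hl₁, Category.assoc, Category.assoc, hf1, map_diaι_assoc]
  · rw [← cancel_mono (diaι f₂ s c), Category.assoc, hl₁, toDia_map_assoc, ← Category.assoc, hT1,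
      Category.assoc, toDia_ι, Category.assoc, toDia_ι]

/-! ### The theorem -/

omit [IsDomain R] in
/-- Restriction of a morphism to a smaller open subset is a base change. -/
theorem isPullback_restrict {U V : (Spec (CommRingCat.of R)).Opens} (h : U ≤ V) :
    IsPullback (Y.homOfLE (f.preimage_mono h)) (f ∣_ U) (f ∣_ V)
      ((Spec (CommRingCat.of R)).homOfLE h) := by
  have h1 := (isPullback_morphismRestrict f U).flip
  have h2 := (isPullback_morphismRestrict f V).flip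
  refine IsPullback.of_right (h₁₂ := (f ⁻¹ᵁ V).ι) (h₂₂ := V.ι) (v₁₃ := f) ?_ ?_ h2
  · rw [Scheme.homOfLE_ι, Scheme.homOfLE_ι]
    exact h1
  · rw [← cancel_mono V.ι, Category.assoc, Category.assoc, morphismRestrict_ι, Scheme.homOfLE_ι,
      morphismRestrict_ι, Scheme.homOfLE_ι_assoc]

omit [IsDomain R] in
theorem exists_D_le (V : (Spec (CommRingCat.of R)).Opens) (hV : V ≠ ⊥) :
    ∃ s : R, s ≠ 0 ∧ D s ≤ V := by
  obtain ⟨x, hx⟩ : ∃ x : PrimeSpectrum R, x ∈ V := by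
    by_contra! h
    exact hV (le_bot_iff.mp fun x hx => h x hx)
  obtain ⟨_, ⟨s, rfl⟩, hxs, hsV⟩ :=
    PrimeSpectrum.isTopologicalBasis_basic_opens.exists_subset_of_mem_open hx V.isOpen
  refine ⟨s, ?_, hsV⟩
  rintro rfl
  exact hxs (zero_mem x.asIdeal)

omit [IsDomain R] in
theorem compactSpace_of_le (V : (Spec (CommRingCat.of R)).Opens) {t : R} (h : D t ≤ V)
    [QuasiCompact (f ∣_ V)] : CompactSpace (f ⁻¹ᵁ D t).toScheme := by
  have h1 : QuasiCompact (f ∣_ D t) :=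
    MorphismProperty.of_isPullback (P := @QuasiCompact) (isPullback_restrict f h) inferInstance
  have h2 : IsAffine (D t).toScheme := isAffineOpen_D t
  exact QuasiCompact.compactSpace_of_compactSpace (f ∣_ D t)

omit [IsDomain R] in
theorem quasiSeparatedSpace_of_le (V : (Spec (CommRingCat.of R)).Opens) {t : R} (h : D t ≤ V)
    [QuasiSeparated (f ∣_ V)] : QuasiSeparatedSpace (f ⁻¹ᵁ D t).toScheme := by
  have h1 : QuasiSeparated (f ∣_ D t) :=
    MorphismProperty.of_isPullback (P := @QuasiSeparated) (isPullback_restrict f h) inferInstance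
  have h2 : IsAffine (D t).toScheme := isAffineOpen_D t
  exact quasiSeparatedSpace_of_quasiSeparated (f ∣_ D t)

omit [IsDomain R] in
theorem locallyOfFinitePresentation_of_le (V : (Spec (CommRingCat.of R)).Opens) {t : R}
    (h : D t ≤ V) [LocallyOfFinitePresentation (f ∣_ V)] :
    LocallyOfFinitePresentation ((f ⁻¹ᵁ D t).ι ≫ f) := by
  have h1 : LocallyOfFinitePresentation (f ∣_ D t) :=
    MorphismProperty.of_isPullback (P := @LocallyOfFinitePresentation)
      (isPullback_restrict f h) inferInstance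
  rw [← morphismRestrict_ι]
  infer_instance

/-- **Isomorphisms of generic fibres spread out.** -/
theorem exists_iso_of_generic (V : (Spec (CommRingCat.of R)).Opens) (hV : V ≠ ⊥)
    [LocallyOfFinitePresentation (f₁ ∣_ V)] [QuasiCompact (f₁ ∣_ V)] [QuasiSeparated (f₁ ∣_ V)]
    [LocallyOfFinitePresentation (f₂ ∣_ V)] [QuasiCompact (f₂ ∣_ V)] [QuasiSeparated (f₂ ∣_ V)]
    (e : pullback f₁ (Spec.map (CommRingCat.ofHom (algebraMap R K))) ≅
      pullback f₂ (Spec.map (CommRingCat.ofHom (algebraMap R K))))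
    (he : e.hom ≫ pullback.snd f₂ (Spec.map (CommRingCat.ofHom (algebraMap R K))) =
      pullback.snd f₁ (Spec.map (CommRingCat.ofHom (algebraMap R K)))) :
    ∃ t : R, t ≠ 0 ∧ D t ≤ V ∧ ∃ φ : (f₁ ⁻¹ᵁ D t).toScheme ≅ (f₂ ⁻¹ᵁ D t).toScheme,
      φ.hom ≫ (f₂ ⁻¹ᵁ D t).ι ≫ f₂ = (f₁ ⁻¹ᵁ D t).ι ≫ f₁ := by
  obtain ⟨s, hs, hsV⟩ : ∃ s : R, s ≠ 0 ∧ D s ≤ V := exists_D_le V hV
  have hle : ∀ t : Idx s, D t.val ≤ V := fun t => (D_le t.dvd).trans hsV
  have hc1 : ∀ t, CompactSpace ((dia f₁ s).obj t) := fun t => compactSpace_of_le f₁ V (hle t)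
  have hc2 : ∀ t, CompactSpace ((dia f₂ s).obj t) := fun t => compactSpace_of_le f₂ V (hle t)
  have hq1 : ∀ t, QuasiSeparatedSpace ((dia f₁ s).obj t) := fun t =>
    quasiSeparatedSpace_of_le f₁ V (hle t)
  have hq2 : ∀ t, QuasiSeparatedSpace ((dia f₂ s).obj t) := fun t =>
    quasiSeparatedSpace_of_le f₂ V (hle t)
  have hp1 : LocallyOfFinitePresentation (diaι f₁ s ⟨s, hs, dvd_refl s⟩ ≫ f₁) :=
    locallyOfFinitePresentation_of_le f₁ V hsV
  have hp2 : LocallyOfFinitePresentation (diaι f₂ s ⟨s, hs, dvd_refl s⟩ ≫ f₂) :=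
    locallyOfFinitePresentation_of_le f₂ V hsV
  obtain ⟨t, φ, hφ, -⟩ := exists_iso_dia K f₁ f₂ hs e he
  exact ⟨t.val, t.ne_zero, hle t, φ, hφ⟩

omit [IsDomain R] in
theorem locallyOfFinitePresentation_of_noetherian {X Z : Scheme.{u}} (g : X ⟶ Z)
    [IsLocallyNoetherian Z] [LocallyOfFiniteType g] : LocallyOfFinitePresentation g := by
  rw [HasRingHomProperty.iff_appLE (P := @LocallyOfFinitePresentation)]
  intro U V e
  have h1 : IsNoetherianRing Γ(Z, U) := IsLocallyNoetherian.component_noetherian U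
  have h2 := (HasRingHomProperty.iff_appLE (P := @LocallyOfFiniteType)).mp ‹_› U V e
  exact RingHom.FinitePresentation.of_finiteType.mp h2

/-- Version for schemes which are proper over an open subset of the spectrum of a Noetherian
domain. -/
theorem exists_iso_of_generic_of_isProper [IsNoetherianRing R]
    (V : (Spec (CommRingCat.of R)).Opens) (hV : V ≠ ⊥)
    [IsProper (f₁ ∣_ V)] [IsProper (f₂ ∣_ V)]
    (e : pullback f₁ (Spec.map (CommRingCat.ofHom (algebraMap R K))) ≅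
      pullback f₂ (Spec.map (CommRingCat.ofHom (algebraMap R K))))
    (he : e.hom ≫ pullback.snd f₂ (Spec.map (CommRingCat.ofHom (algebraMap R K))) =
      pullback.snd f₁ (Spec.map (CommRingCat.ofHom (algebraMap R K)))) :
    ∃ t : R, t ≠ 0 ∧ D t ≤ V ∧ ∃ φ : (f₁ ⁻¹ᵁ D t).toScheme ≅ (f₂ ⁻¹ᵁ D t).toScheme,
      φ.hom ≫ (f₂ ⁻¹ᵁ D t).ι ≫ f₂ = (f₁ ⁻¹ᵁ D t).ι ≫ f₁ := by
  have h0 : IsLocallyNoetherian (Spec (CommRingCat.of R)) := inferInstance
  have h1 : IsLocallyNoetherian V.toScheme := isLocallyNoetherian_of_isOpenImmersion V.ι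
  have h2 := locallyOfFinitePresentation_of_noetherian (f₁ ∣_ V)
  have h3 := locallyOfFinitePresentation_of_noetherian (f₂ ∣_ V)
  exact exists_iso_of_generic K f₁ f₂ V hV e he

omit [IsDomain R] in
/-- Properties which are stable under base change pass to smaller open subsets of the base. -/
theorem restrict_of_le (P : MorphismProperty Scheme.{u}) [P.IsStableUnderBaseChange]
    {U V : (Spec (CommRingCat.of R)).Opens} (h : U ≤ V) (hP : P (f ∣_ V)) : P (f ∣_ U) :=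
  MorphismProperty.of_isPullback (isPullback_restrict f h) hP

/-- Version for schemes which are proper over open subsets of the spectrum of a Noetherian
domain. -/
theorem exists_iso_of_generic_of_isProper' [IsNoetherianRing R]
    (V₁ V₂ : (Spec (CommRingCat.of R)).Opens) (hV₁ : V₁ ≠ ⊥) (hV₂ : V₂ ≠ ⊥)
    (h₁ : IsProper (f₁ ∣_ V₁)) (h₂ : IsProper (f₂ ∣_ V₂))
    (e : pullback f₁ (Spec.map (CommRingCat.ofHom (algebraMap R K))) ≅
      pullback f₂ (Spec.map (CommRingCat.ofHom (algebraMap R K))))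
    (he : e.hom ≫ pullback.snd f₂ (Spec.map (CommRingCat.ofHom (algebraMap R K))) =
      pullback.snd f₁ (Spec.map (CommRingCat.ofHom (algebraMap R K)))) :
    ∃ t : R, t ≠ 0 ∧ D t ≤ V₁ ∧ D t ≤ V₂ ∧
      ∃ φ : (f₁ ⁻¹ᵁ D t).toScheme ≅ (f₂ ⁻¹ᵁ D t).toScheme,
        φ.hom ≫ (f₂ ⁻¹ᵁ D t).ι ≫ f₂ = (f₁ ⁻¹ᵁ D t).ι ≫ f₁ := by
  obtain ⟨s₁, hs₁, hsV₁⟩ := exists_D_le V₁ hV₁
  obtain ⟨s₂, hs₂, hsV₂⟩ := exists_D_le V₂ hV₂
  have hl₁ : D (s₁ * s₂) ≤ V₁ := (D_le (dvd_mul_right s₁ s₂)).trans hsV₁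
  have hl₂ : D (s₁ * s₂) ≤ V₂ := (D_le (dvd_mul_left s₂ s₁)).trans hsV₂
  have hV : D (s₁ * s₂) ≠ ⊥ := by
    intro h
    have h1 : (⊥ : PrimeSpectrum R) ∈ D (s₁ * s₂) := by
      intro h2
      exact mul_ne_zero hs₁ hs₂ (by simpa using h2)
    rw [h] at h1
    exact h1
  have := restrict_of_le f₁ @IsProper hl₁ h₁
  have := restrict_of_le f₂ @IsProper hl₂ h₂
  obtain ⟨t, ht, htV, φ, hφ⟩ := exists_iso_of_generic_of_isProper K f₁ f₂ _ hV e he
  exact ⟨t, ht, htV.trans hl₁, htV.trans hl₂, φ, hφ⟩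

end Pool.Agent.Lib.MP_6a3dac_ag.Fam.GL2
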