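import Pool.Agent.Lib.MP_6a3dac_ag.Mg.G020

/-!
# Spreading out
-/

set_option autoImplicit false

namespace Pool.Agent.Lib.MP_6a3dac_ag.Fam

open MvPolynomial CategoryTheory Limits AlgebraicGeometry NumberField IsDedekindDomain Filter
open IsLocalRing Topology
open Pool.Agent.Lib.MP_6a3dac_ag.DNF Pool.Agent.Lib.MP_6a3dac_ag.Bert

/-- Compactness: if every prime ideal which contains `I` and is disjoint from `M` misses an element
of `S`, then the ideal generated by `I` and `S` meets `M`. -/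
theorem ff1_compact {R : Type} [CommRing R] (I : Ideal R) (S : Set R) (M : Submonoid R)
    (h : ∀ 𝔮 : Ideal R, 𝔮.IsPrime → I ≤ 𝔮 → (∀ x ∈ M, x ∉ 𝔮) → ∃ x ∈ S, x ∉ 𝔮) :
    ∃ x ∈ M, x ∈ I ⊔ Ideal.span S := by
  by_contra hcon
  push Not at hcon
  have hd : Disjoint ((I ⊔ Ideal.span S : Ideal R) : Set R) (M : Set R) := by
    rw [Set.disjoint_left]
    intro x hx hxM
    exact hcon x hxM hx
  obtain ⟨𝔮, h𝔮, hle, hdis⟩ := Ideal.exists_le_prime_disjoint _ M hd
  obtain ⟨x, hxS, hx⟩ := h 𝔮 h𝔮 (le_sup_left.trans hle)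
    (fun x hx hx' => Set.disjoint_left.1 hdis hx' hx)
  exact hx (hle (Ideal.mem_sup_right (Ideal.subset_span hxS)))

/-- If an element of `I + (S)` is not in `𝔮 ⊇ I`, then an element of `S` is not in `𝔮`. -/
theorem ff1_exists {R : Type} [CommRing R] {I : Ideal R} {S : Set R} {x : R}
    (hx : x ∈ I ⊔ Ideal.span S) {𝔮 : Ideal R} (hI : I ≤ 𝔮) (hxq : x ∉ 𝔮) : ∃ y ∈ S, y ∉ 𝔮 := by
  by_contra hcon
  push Not at hcon
  exact hxq ((sup_le hI (Ideal.span_le.2 hcon)) hx)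

/-- The fibres are obtained by specialization. -/
theorem ff1_dId_le {R ι : Type} [CommRing R] {n : ℕ} {J : HomIdeal (MvPolynomial ι R) (n + 1)}
    {a : ι → R} {i : Fin (n + 1)} {𝔮 : Ideal (MvPolynomial {l : Fin (n + 1) // l ≠ i} R)}
    (h : dId (fib J a) i ≤ 𝔮) : dId J i ≤ 𝔮.comap (MvPolynomial.map (eval a)) := by
  rw [← Ideal.map_le_iff_le_comap, ← dId_bc]
  exact h

section Fsec

variable {E : Type} [Field E] [NumberField E] {ι : Type} {m c : ℕ}
  {J : HomIdeal (MvPolynomial ι (𝓞 E)) (m + c + 1)}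

omit [NumberField E] in
/-- There is a nonzero polynomial such that the fibres over the points where it does not vanish are
smooth over `E`. -/
theorem exists_generic [Finite ι] (h : GenSmooth J) : ∃ D : MvPolynomial ι (𝓞 E), D ≠ 0 ∧
    ∀ a : ι → 𝓞 E, eval a D ≠ 0 → GenFibreSmooth (fib J a) := by
  classical
  have key : ∀ i : Fin (m + c + 1), ∃ D : MvPolynomial ι (𝓞 E), D ≠ 0 ∧
      C D ∈ dId J i ⊔ Ideal.span {x | ∃ (U : Std (MvPolynomial ι (𝓞 E)) _)
        (F : MvPolynomial {l : Fin (m + c + 1) // l ≠ i} (MvPolynomial ι (𝓞 E))) (e : _),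
        IsPres (dId J i) U F ∧ U.T.card = m + 1 ∧ e ∈ U.T ∧ x = U.h * U.vf e F} := by
    intro i
    obtain ⟨x, hxM, hx⟩ := ff1_compact (dId J i)
      {x | ∃ (U : Std (MvPolynomial ι (𝓞 E)) _)
        (F : MvPolynomial {l : Fin (m + c + 1) // l ≠ i} (MvPolynomial ι (𝓞 E))) (e : _),
        IsPres (dId J i) U F ∧ U.T.card = m + 1 ∧ e ∈ U.T ∧ x = U.h * U.vf e F}
      ((nonZeroDivisors (MvPolynomial ι (𝓞 E))).map
        (C : MvPolynomial ι (𝓞 E) →+* MvPolynomial {l : Fin (m + c + 1) // l ≠ i} _))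
      (by
        intro 𝔮 h𝔮 hle hM
        obtain ⟨U, F, hP, hc, hh, e, he, hv⟩ := h i 𝔮 h𝔮 hle (by
          intro p hp
          by_contra hp0
          exact hM (C p) (Submonoid.mem_map_of_mem _ (mem_nonZeroDivisors_of_ne_zero hp0)) hp)
        refine ⟨_, ⟨U, F, e, hP, hc, he, rfl⟩, fun hmem => ?_⟩
        rcases h𝔮.mem_or_mem hmem with h1 | h1
        · exact hh h1
        · exact hv h1)
    obtain ⟨D, hD, rfl⟩ := Submonoid.mem_map.1 hxM
    exact ⟨D, nonZeroDivisors.ne_zero hD, hx⟩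
  choose D hD0 hD using key
  refine ⟨∏ i, D i, Finset.prod_ne_zero_iff.2 fun i _ => hD0 i, fun a ha => ?_⟩
  intro i 𝔮 h𝔮 hle hconst
  have hai : eval a (D i) ≠ 0 := by
    rw [map_prod] at ha
    exact (Finset.prod_ne_zero_iff.1 ha) i (Finset.mem_univ i)
  have hx : C (D i) ∉ 𝔮.comap (MvPolynomial.map (eval a)) := by
    rw [Ideal.mem_comap, map_C]
    intro hmem
    exact hai (hconst _ hmem)
  obtain ⟨_, ⟨U, F, e, hP, hc, he, rfl⟩, hy⟩ := ff1_exists (hD i) (ff1_dId_le hle) hx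
  have hs : SmoothPt m (dId J i) (𝔮.comap (MvPolynomial.map (eval a))) :=
    ⟨U, F, hP, hc, fun h1 => hy (Ideal.mul_mem_right _ _ h1), e, he,
      fun h1 => hy (Ideal.mul_mem_left _ _ h1)⟩
  have := SmoothPt.map (eval a) hs
  rwa [← dId_bc] at this

end Fsec

end Pool.Agent.Lib.MP_6a3dac_ag.Fam
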