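import Pool.Agent.Lib.MP_6a3dac_ag.Mg.G020

/-!
# Spreading out: the nodal points
-/

set_option autoImplicit false

namespace Pool.Agent.Lib.MP_6a3dac_ag.Fam

open MvPolynomial CategoryTheory Limits AlgebraicGeometry NumberField IsDedekindDomain Filter
open IsLocalRing Topology
open Pool.Agent.Lib.MP_6a3dac_ag.DNF Pool.Agent.Lib.MP_6a3dac_ag.Bert

section Fsec

/-- The ideal which defines the points which are not nodal. -/
noncomputable def f2_bad {R σ : Type} [CommRing R] [Fintype σ] [DecidableEq σ] (m : ℕ)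
    (J : Ideal (MvPolynomial σ R)) : Ideal (MvPolynomial σ R) :=
  J ⊔ Ideal.span {y | ∃ (U : Std R σ) (F : MvPolynomial σ R), IsPres J U F ∧ U.T.card = m + 1 ∧
    ((∃ e ∈ U.T, y = U.h * U.vf e F) ∨ y = U.h * (U.hess F).det)}

theorem f2_nodalPt_iff {R σ : Type} [CommRing R] [Fintype σ] [DecidableEq σ] {m : ℕ}
    {J 𝔮 : Ideal (MvPolynomial σ R)} [h𝔮 : 𝔮.IsPrime] (hJ : J ≤ 𝔮) :
    NodalPt m J 𝔮 ↔ ¬ f2_bad m J ≤ 𝔮 := by
  constructor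
  · rintro ⟨U, F, hp, hc, hh, hor⟩ hle
    have h1 : ∀ y, (∃ (U : Std R σ) (F : MvPolynomial σ R), IsPres J U F ∧ U.T.card = m + 1 ∧
      ((∃ e ∈ U.T, y = U.h * U.vf e F) ∨ y = U.h * (U.hess F).det)) → y ∈ 𝔮 := fun y hy =>
      hle (Ideal.mem_sup_right (Ideal.subset_span hy))
    rcases hor with ⟨e, he, hv⟩ | hv
    · have h2 := h1 (U.h * U.vf e F) ⟨U, F, hp, hc, Or.inl ⟨e, he, rfl⟩⟩
      rcases h𝔮.mem_or_mem h2 with h3 | h3
      · exact hh h3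
      · exact hv h3
    · have h2 := h1 (U.h * (U.hess F).det) ⟨U, F, hp, hc, Or.inr rfl⟩
      rcases h𝔮.mem_or_mem h2 with h3 | h3
      · exact hh h3
      · exact hv h3
  · intro hle
    by_contra hn
    apply hle
    refine sup_le hJ (Ideal.span_le.2 ?_)
    rintro y ⟨U, F, hp, hc, hor⟩
    by_contra hy
    apply hn
    rcases hor with ⟨e, he, rfl⟩ | rfl
    · refine ⟨U, F, hp, hc, fun h3 => hy (Ideal.mul_mem_right _ _ h3), Or.inl ⟨e, he, fun h3 =>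
        hy (Ideal.mul_mem_left _ _ h3)⟩⟩
    · exact ⟨U, F, hp, hc, fun h3 => hy (Ideal.mul_mem_right _ _ h3), Or.inr fun h3 =>
        hy (Ideal.mul_mem_left _ _ h3)⟩

variable {E : Type} [Field E] [NumberField E] {ι : Type} {m c : ℕ}
  {J : HomIdeal (MvPolynomial ι (𝓞 E)) (m + c + 1)}

/-- A multiple of a power of `g` by a constant lies in the ideal of the bad points. -/
theorem f2_exists (i : Fin (m + c + 1)) (g : MvPolynomial ι (𝓞 E))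
    (h : ∀ (𝔮 : Ideal (MvPolynomial {l : Fin (m + c + 1) // l ≠ i} (MvPolynomial ι (𝓞 E)))),
      𝔮.IsPrime → dId J i ≤ 𝔮 → (∀ z : 𝓞 E, C (C z) ∈ 𝔮 → z = 0) → C g ∉ 𝔮 →
        NodalPt m (dId J i) 𝔮) :
    ∃ z : 𝓞 E, z ≠ 0 ∧ ∃ r : ℕ, C (C z) * (C g) ^ r ∈ f2_bad m (dId J i) := by
  classical
  let M : Submonoid (MvPolynomial {l : Fin (m + c + 1) // l ≠ i} (MvPolynomial ι (𝓞 E))) :=
    { carrier := {y | ∃ z : 𝓞 E, z ≠ 0 ∧ ∃ r : ℕ, y = C (C z) * (C g) ^ r}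
      one_mem' := ⟨1, one_ne_zero, 0, by simp⟩
      mul_mem' := by
        rintro _ _ ⟨z, hz, r, rfl⟩ ⟨w, hw, s, rfl⟩
        exact ⟨z * w, mul_ne_zero hz hw, r + s, by rw [C_mul, C_mul, pow_add]; ring⟩ }
  by_contra hne
  have hd : Disjoint ((f2_bad m (dId J i) : Ideal _) : Set
      (MvPolynomial {l : Fin (m + c + 1) // l ≠ i} (MvPolynomial ι (𝓞 E)))) (M : Set _) := by
    rw [Set.disjoint_left]
    rintro y hy ⟨z, hz, r, rfl⟩
    exact hne ⟨z, hz, r, hy⟩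
  obtain ⟨𝔮, h𝔮, hle, hdis⟩ := Ideal.exists_le_prime_disjoint _ M hd
  have hJ : dId J i ≤ 𝔮 := le_sup_left.trans hle
  have hz : ∀ z : 𝓞 E, C (C z) ∈ 𝔮 → z = 0 := by
    intro z hz
    by_contra h0
    exact Set.disjoint_left.1 hdis hz ⟨z, h0, 0, by simp⟩
  have hg : (C g : MvPolynomial {l : Fin (m + c + 1) // l ≠ i} (MvPolynomial ι (𝓞 E))) ∉ 𝔮 :=
    fun hg => Set.disjoint_left.1 hdis hg ⟨1, one_ne_zero, 1, by simp⟩
  exact (f2_nodalPt_iff hJ).1 (h 𝔮 h𝔮 hJ hz hg) hle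

/-- TASK F2 -/
theorem exists_nodal [Finite ι] {g G : MvPolynomial ι (𝓞 E)}
    (h : ∀ (i : Fin (m + c + 1))
      (𝔮 : Ideal (MvPolynomial {l : Fin (m + c + 1) // l ≠ i} (MvPolynomial ι (𝓞 E)))),
      𝔮.IsPrime → dId J i ≤ 𝔮 → (∀ z : 𝓞 E, C (C z) ∈ 𝔮 → z = 0) → (C g ∉ 𝔮 ∨ C G ∉ 𝔮) →
        NodalPt m (dId J i) 𝔮) :
    ∃ m₀ : 𝓞 E, m₀ ≠ 0 ∧ ∀ P : HeightOneSpectrum (𝓞 E), m₀ ∉ P.asIdeal → ∀ a : ι → 𝓞 E,
      (eval a g ∉ P.asIdeal ∨ eval a G ∉ P.asIdeal) → NodalAbove P J a := by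
  classical
  have h1 := fun i => f2_exists (J := J) i g fun 𝔮 a1 a2 a3 a4 => h i 𝔮 a1 a2 a3 (Or.inl a4)
  have h2 := fun i => f2_exists (J := J) i G fun 𝔮 a1 a2 a3 a4 => h i 𝔮 a1 a2 a3 (Or.inr a4)
  choose z hz r hr using h1
  choose w hw s hs using h2
  refine ⟨∏ i, (z i * w i), Finset.prod_ne_zero_iff.2 fun i _ => mul_ne_zero (hz i) (hw i), ?_⟩
  intro P hP a hor i 𝔮 h𝔮 hJ hiff
  have hzw : z i * w i ∉ P.asIdeal := fun hm => hP
    (Ideal.mem_of_dvd _ (Finset.dvd_prod_of_mem _ (Finset.mem_univ i)) hm)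
  have key : ∀ (y : 𝓞 E) (f : MvPolynomial ι (𝓞 E)) (k : ℕ), y ∉ P.asIdeal →
      eval a f ∉ P.asIdeal → C (C y) * (C f) ^ k ∈ f2_bad m (dId J i) →
      NodalPt m (dId J i) 𝔮 := by
    intro y f k hy hf hmem
    rw [f2_nodalPt_iff hJ]
    intro hle
    rcases h𝔮.mem_or_mem (hle hmem) with h3 | h3
    · rw [hiff, eval_C] at h3
      exact hy h3
    · have h4 := h𝔮.mem_of_pow_mem _ h3
      rw [hiff] at h4
      exact hf h4
  rcases hor with hg | hG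
  · exact key (z i) g (r i) (fun hm => hzw (Ideal.mul_mem_right _ _ hm)) hg (hr i)
  · exact key (w i) G (s i) (fun hm => hzw (Ideal.mul_mem_left _ _ hm)) hG (hs i)

end Fsec

end Pool.Agent.Lib.MP_6a3dac_ag.Fam
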