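import Pool.Agent.Lib.MP_6a3dac_ag.Mg.G019
import Pool.Agent.Lib.MP_6a3dac_ag.Mg.G021
import Pool.Agent.Lib.MP_6a3dac_ag.Mg.G020
import Pool.Agent.Lib.MP_6a3dac_ag.Bert.Local

/-!
# The local criterion
-/

set_option autoImplicit false

namespace Pool.Agent.Lib.MP_6a3dac_ag.Fam

open MvPolynomial CategoryTheory Limits AlgebraicGeometry NumberField IsDedekindDomain Filter
open IsLocalRing Topology
open Pool.Agent.Lib.MP_6a3dac_ag.DNF Pool.Agent.Lib.MP_6a3dac_ag.Bert
open Pool.Agent.Lib.MP_6a3dac_ag.Maj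

section D

variable {E : Type} [Field E] [NumberField E] {m c : ℕ} {J : HomIdeal (𝓞 E) (m + c + 1)}

/-- TASK D3 -/
theorem hasRegularModel_component_fam {p : HomIdeal E (m + c + 1)}
    (hLD : ∀ i, LocDom (dId (bc (algebraMap (𝓞 E) E) J) i))
    (hp : p.ideal ∈ (bc (algebraMap (𝓞 E) E) J).ideal.minimalPrimes)
    (hgen : GenFibreSmooth J)
    (hP : ∀ P : HeightOneSpectrum (𝓞 E), TanOver P J ∨ NodalOver P J) :
    HasRegularModel E (hProjTo p) := by
  classical
  obtain ⟨δ, G, hδ, hGδ, hG1, hG2⟩ := exists_jacForms J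
  obtain ⟨m₁, hm0, hm⟩ := exists_const hgen hG2
  have hprime : p.ideal.IsPrime := hp.1.1
  have : IsDomain (HCoord p) := Ideal.Quotient.isDomain p.ideal
  let _ : Algebra (𝓞 E) (HCoord p) := ((algebraMap E (HCoord p)).comp (algebraMap (𝓞 E) E)).toAlgebra
  have : IsScalarTower (𝓞 E) E (HCoord p) := IsScalarTower.of_algebraMap_eq fun _ => rfl
  have hRf : ¬ IsField (𝓞 E) := RingOfIntegers.not_isField E
  choose ϖ hϖ using fun P : HeightOneSpectrum (𝓞 E) => exists_unif (K := E) P
  have hϖ0 : ∀ P, ϖ P ≠ 0 := fun P h0 => (hϖ P).ne_zero (by rw [h0, map_zero])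
  choose rr u hu1 hu2 hr0 using fun P : HeightOneSpectrum (𝓞 E) => exists_exponent P hm0 (hϖ P)
  -- the exponents
  obtain ⟨r, hr⟩ : ∃ r : HeightOneSpectrum (𝓞 E) → ℕ, ∀ P, (TanOver P J → r P = 0) ∧
      (¬ TanOver P J → r P = rr P) :=
    ⟨fun P => if TanOver P J then 0 else rr P, fun P => ⟨fun h => if_pos h, fun h => if_neg h⟩⟩
  have hdeg : ∀ (S : Type) [CommRing S] [Algebra S E] (q : MvPolynomial (Fin (m + c + 1)) S) e,
      q.IsHomogeneous e → piS (hMk p) S q ∈ hGr p e := fun S _ _ q e hq =>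
    ⟨_, hq.map _, rfl⟩
  have hoA : ∀ P : HeightOneSpectrum (𝓞 E), oA E (HCoord p) (locRing E P)
      (algebraMap (𝓞 E) (locRing E P) (ϖ P)) = algebraMap (𝓞 E) (HCoord p) (ϖ P) := fun P =>
    oA_algebraMap (K := E) (O := locRing E P) (ϖ P)
  have hxP : ∀ P : HeightOneSpectrum (𝓞 E), (fun k => piS (hMk p) (locRing E P) (X k)) =
      fun k => hMk p (X k) := fun P => funext fun k => piS_X (hMk p) _ k
  -- the forms over the local rings
  obtain ⟨GP, hGP⟩ : ∃ GP : ∀ P : HeightOneSpectrum (𝓞 E),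
      Finset (MvPolynomial (Fin (m + c + 1)) (locRing E P)), ∀ P,
      GP P = G.image (MvPolynomial.map (algebraMap (𝓞 E) (locRing E P))) := ⟨_, fun _ => rfl⟩
  have hGPδ : ∀ P, ∀ g ∈ GP P, g.IsHomogeneous δ := by
    intro P g hg
    rw [hGP, Finset.mem_image] at hg
    obtain ⟨g, hg, rfl⟩ := hg
    exact (hGδ g hg).map _
  have hO := fun P : HeightOneSpectrum (𝓞 E) => orderHypB (R := 𝓞 E) (K := E) P.asIdeal
    (𝒜 := hGr p) (π := piS (hMk p) (locRing E P)) (hdeg _) (fun c => piS_C (hMk p) _ c) hδ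
    (hGPδ P) (algebraMap (𝓞 E) (locRing E P) (ϖ P)) (r P)
  have hLG : LocalGens (R := 𝓞 E) (hGr p) (fun P => DNF.WSet (fun k => hMk p (X k))
      (oset (piS (hMk p) (locRing E P)) δ (GP P) (algebraMap (𝓞 E) (HCoord p) (ϖ P))) (r P) ∪
        DNF.W1Set (fun k => hMk p (X k)) (algebraMap (𝓞 E) (HCoord p) (ϖ P)) (r P))
        (Set.range fun k => hMk p (X k)) :=
    { finite := fun P => (DNF.finite_WSet (fun j => finite_oset _ _ _ _ j) _).union
        (DNF.finite_W1Set _)
      finite₀ := Set.finite_range _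
      ae := by
        refine (finite_mem_prime hm0).subset ?_
        intro P hP'
        by_contra hdp
        apply hP'
        have h1 : r P = 0 := by
          by_cases h : TanOver P J
          · exact (hr P).1 h
          · rw [(hr P).2 h]
            exact hr0 P hdp
        change DNF.WSet (fun k => hMk p (X k)) (oset (piS (hMk p) (locRing E P)) δ (GP P)
          (algebraMap (𝓞 E) (HCoord p) (ϖ P))) (r P) ∪
          DNF.W1Set (fun k => hMk p (X k)) (algebraMap (𝓞 E) (HCoord p) (ϖ P)) (r P) = _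
        rw [h1, WSet_zero, W1Set_zero, Set.union_self]
      homog := by
        intro P w hw
        have hOP := hO P
        rw [hxP, hoA] at hOP
        rcases hw with hw | ⟨i, rfl⟩
        · exact ⟨_, Nat.succ_pos _, hOP.W_deg hw⟩
        · refine ⟨1, one_pos, ?_⟩
          have := SetLike.mul_mem_graded hOP.theta_deg (hOP.xdeg i)
          simpa using this
      full := fun P a => full_order (hMk p) (adjoin_hMk p) (hϖ0 P) (r P) a
      full₀ := fun a => by
        have := full_order (hMk p) (adjoin_hMk p) (B := fun _ => ∅) (one_ne_zero (α := 𝓞 E)) 0 a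
        rwa [WSet_zero, W1Set_zero, Set.union_self] at this }
  have hnt : Nontrivial (HCoord p) := inferInstance
  refine Pool.Agent.Lib.MP_6a3dac_ag.exists_model (hGr p) hLG hRf fun P => ?_
  intro hS y hy hyh hirr
  let F := FractionRing (HCoord p)
  let ι : HCoord p →+* F := algebraMap (HCoord p) F
  have hι : Function.Injective ι := IsFractionRing.injective (HCoord p) F
  apply isRegularLocalRing_of_homLoc (hGr p) ι _ y hι hS
  have hOK : Function.Injective (algebraMap (locRing E P) E) :=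
    FaithfulSMul.algebraMap_injective _ E
  have hrel : ∃ k, 0 < k ∧ ∃ t : localOrder (fun P => DNF.WSet (fun k => hMk p (X k))
      (oset (piS (hMk p) (locRing E P)) δ (GP P) (algebraMap (𝓞 E) (HCoord p) (ϖ P))) (r P) ∪
        DNF.W1Set (fun k => hMk p (X k)) (algebraMap (𝓞 E) (HCoord p) (ϖ P)) (r P)) P,
      (t : HCoord p) ∈ hGr p k ∧ t ∉ y := by
    by_contra hcon
    push Not at hcon
    apply hirr
    rw [HomogeneousIdeal.toIdeal_irrelevant_le]
    intro i hi s hs
    exact hcon i hi s hs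
  have hT : localOrder (fun P => DNF.WSet (fun k => hMk p (X k))
      (oset (piS (hMk p) (locRing E P)) δ (GP P) (algebraMap (𝓞 E) (HCoord p) (ϖ P))) (r P) ∪
        DNF.W1Set (fun k => hMk p (X k)) (algebraMap (𝓞 E) (HCoord p) (ϖ P)) (r P)) P =
      locSub P.asIdeal (Algebra.adjoin (𝓞 E)
        (DNF.WSet (fun k => piS (hMk p) (locRing E P) (X k))
          (oset (piS (hMk p) (locRing E P)) δ (GP P) (oA E (HCoord p) (locRing E P)
            (algebraMap (𝓞 E) (locRing E P) (ϖ P)))) (r P) ∪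
        DNF.W1Set (fun k => piS (hMk p) (locRing E P) (X k)) (oA E (HCoord p) (locRing E P)
            (algebraMap (𝓞 E) (locRing E P) (ϖ P))) (r P))) := by
    rw [hxP, hoA]
    rfl
  have hlocD := isLocalRing_homLoc (hGr p) ι _ y hι
  obtain ⟨i, φ, b, h1, h2, h3, h4⟩ := exists_chartPoint (R := 𝓞 E) (K := E) hOK P.asIdeal
    (𝒜 := hGr p) (π := piS (hMk p) (locRing E P)) (hdeg _) (fun c => piS_C (hMk p) _ c) hδ
    (hGPδ P) ι hι (algebraMap (𝓞 E) (locRing E P) (ϖ P)) (r P) hT y hy hrel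
  have hi : X i ∉ p.ideal := by
    intro h5
    apply h1
    rw [piS_X, hMk_eq_zero]
    exact h5
  have hφ : ∀ q, φ q = 0 ↔ MvPolynomial.map (algebraMap (locRing E P) E) q ∈ dId p i := by
    intro q
    obtain ⟨N, g, hg, rfl⟩ := exists_homog i q
    rw [h2 N g hg, piS_apply, hMk_eq_zero, map_dehom', dehom_mem_iff p hprime hi (hg.map _)]
  have hpimage : ∀ w, (∃ g ∈ GP P, w = φ (dehom i g)) ↔ ∃ g ∈ G,
      w = φ (MvPolynomial.map (algebraMap (𝓞 E) (locRing E P)) (dehom i g)) := by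
    intro w
    rw [hGP]
    constructor
    · rintro ⟨g, hg, rfl⟩
      obtain ⟨g', hg', rfl⟩ := Finset.mem_image.mp hg
      exact ⟨g', hg', by rw [map_dehom']⟩
    · rintro ⟨g, hg, rfl⟩
      exact ⟨_, Finset.mem_image_of_mem _ hg, by rw [map_dehom']⟩
  by_cases hPt : TanOver P J
  · refine regular_of_tanOver hgen hLD hp P hi φ hφ hPt ?_
    have hr0' : r P = 0 := (hr P).1 hPt
    exact h4 _ (dom_locIn φ) le_rfl fun j hj1 hj2 => by omega
  · have hN := (hP P).resolve_left hPt
    have hrP : r P = rr P := (hr P).2 hPt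
    refine regular_of_nodal_fam hgen hLD hp P hi φ hφ hN (hG1 i) (hG2 i) (hm i) (hϖ P) (r := r P)
      (hu1 P) (by rw [hrP]; exact hu2 P) b ?_ ?_
    · intro j hj1 hj2
      obtain ⟨a1, a2, a3, a4⟩ := h3 j hj1 hj2
      refine ⟨a1, a2, ?_, ?_⟩
      · intro g hg
        obtain ⟨g', hg', h5⟩ := (hpimage _).mpr ⟨g, hg, rfl⟩
        rw [h5]
        exact a3 g' hg'
      · have h5 : ((fun g => φ (MvPolynomial.map (algebraMap (𝓞 E) (locRing E P)) (dehom i g))) ''
          (G : Set (MvPolynomial (Fin (m + c + 1)) (𝓞 E)))) =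
            ((fun g => φ (dehom i g)) '' (GP P : Set _)) := by
          ext w
          constructor
          · rintro ⟨g, hg, rfl⟩
            obtain ⟨g', hg', h5⟩ := (hpimage _).mpr ⟨g, hg, rfl⟩
            exact ⟨g', hg', h5.symm⟩
          · rintro ⟨g, hg, rfl⟩
            obtain ⟨g', hg', h5⟩ := (hpimage _).mp ⟨g, hg, rfl⟩
            exact ⟨g', hg', h5.symm⟩
        rw [h5]
        exact a4
    · intro R' hR1 hR2 hR3
      refine h4 R' hR1 hR2 fun j hj1 hj2 w hw => hR3 j hj1 hj2 w ?_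
      rcases hw with hw | ⟨g, hg, hw⟩
      · exact Or.inl hw
      · obtain ⟨g', hg', h5⟩ := (hpimage _).mp ⟨g, hg, rfl⟩
        exact Or.inr ⟨g', hg', hw.trans h5⟩

/-- **The local criterion** -/
theorem hasModel_of_local_fam (hgen : GenFibreSmooth J)
    (hP : ∀ P : HeightOneSpectrum (𝓞 E), TanOver P J ∨ NodalOver P J) : HasModel J := by
  refine ⟨smooth_of_smoothPt _ hgen.smoothPt, ?_⟩
  have hLD : ∀ i, LocDom (dId (bc (algebraMap (𝓞 E) E) J) i) := fun i =>
    locDom_of_smoothPt (hgen.smoothPt i)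
  obtain ⟨τ, _, p, f, h1, h2, h3, h4, h5, h6⟩ :=
    exists_components (bc (algebraMap (𝓞 E) E) J) hLD
  refine HasRegularModel.of_finite f h4 h5 h6 fun j => ?_
  rw [h3 j]
  exact hasRegularModel_component_fam hLD (h1 j) hgen hP

end D

end Pool.Agent.Lib.MP_6a3dac_ag.Fam
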