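import Pool.Agent.Lib.MP_6a3dac_ag.Fam.Defs
import Pool.Agent.Lib.MP_6a3dac_ag.Bert.Tail

/-!
# Irreducible factors
-/

set_option autoImplicit false

namespace Pool.Agent.Lib.MP_6a3dac_ag.Fam

open MvPolynomial CategoryTheory Limits AlgebraicGeometry NumberField IsDedekindDomain Filter
open IsLocalRing Topology
open Pool.Agent.Lib.MP_6a3dac_ag.DNF Pool.Agent.Lib.MP_6a3dac_ag.Bert
open Pool.Agent.Lib.MP_6a3dac_ag.Maj

section Esec

variable {ι : Type} [Fintype ι] [DecidableEq ι] {E : Type} [Field E] [NumberField E] {s : ℕ}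
  (b : Module.Basis (Fin s) ℤ (𝓞 E))

omit [Fintype ι] [DecidableEq ι] in
/-- TASK E3 -/
theorem exists_irred_pairs (g G : MvPolynomial ι (𝓞 E))
    (h : IsRelPrime (MvPolynomial.map (algebraMap (𝓞 E) E) g)
      (MvPolynomial.map (algebraMap (𝓞 E) E) G)) :
    ∃ (T : Type) (_ : Fintype T) (g' G' : T → MvPolynomial ι (𝓞 E)) (m : 𝓞 E), m ≠ 0 ∧
      (∀ t, Irreducible (MvPolynomial.map (algebraMap (𝓞 E) E) (g' t))) ∧
      (∀ t, ¬ MvPolynomial.map (algebraMap (𝓞 E) E) (g' t) ∣
        MvPolynomial.map (algebraMap (𝓞 E) E) (G' t)) ∧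
      ∀ P : HeightOneSpectrum (𝓞 E), m ∉ P.asIdeal → ∀ a : ι → 𝓞 E,
        eval a g ∈ P.asIdeal → eval a G ∈ P.asIdeal →
          ∃ t, eval a (g' t) ∈ P.asIdeal ∧ eval a (G' t) ∈ P.asIdeal := by
  classical
  by_cases hg0 : MvPolynomial.map (algebraMap (𝓞 E) E) g = 0
  · -- the first polynomial is zero: the second one is a nonzero constant
    have hu : IsUnit (MvPolynomial.map (algebraMap (𝓞 E) E) G) := by
      rw [hg0] at h
      exact isRelPrime_zero_left.1 h
    rw [isUnit_iff_eq_C_of_isReduced] at hu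
    obtain ⟨c, hc, hcG⟩ := hu
    have hc' : algebraMap (𝓞 E) E (coeff 0 G) = c := by
      have h1 := congrArg (coeff 0) hcG
      rwa [coeff_map, coeff_zero_C] at h1
    have hG : G = C (coeff 0 G) := by
      apply t2_inj (E := E)
      rw [hcG, map_C, hc']
    refine ⟨Empty, inferInstance, fun t => t.elim, fun t => t.elim, coeff 0 G, ?_,
      fun t => t.elim, fun t => t.elim, ?_⟩
    · intro h0
      rw [h0, map_zero] at hc'
      exact hc.ne_zero hc'.symm
    · intro P hP a _ h2
      rw [hG, eval_C] at h2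
      exact absurd h2 hP
  · obtain ⟨f, hf, u, hfu⟩ := WfDvdMonoid.exists_factors _ hg0
    choose v hv cl hcl using fun p : MvPolynomial ι E => t2_clear p
    have hinj : Function.Injective (algebraMap (𝓞 E) E) := IsFractionRing.injective (𝓞 E) E
    have hne : ∀ x : 𝓞 E, x ≠ 0 → algebraMap (𝓞 E) E x ≠ 0 := fun x hx h0 =>
      hx (hinj (h0.trans (map_zero _).symm))
    obtain ⟨u0, hu0, huC⟩ := isUnit_iff_eq_C_of_isReduced.1 u.isUnit
    obtain ⟨x, y, hy, hxy⟩ := IsFractionRing.div_surjective (A := 𝓞 E) u0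
    have hy0 : y ≠ 0 := nonZeroDivisors.ne_zero hy
    have hx0 : x ≠ 0 := by
      rintro rfl
      rw [map_zero, zero_div] at hxy
      exact hu0.ne_zero hxy.symm
    have hxy' : algebraMap (𝓞 E) E y * u0 = algebraMap (𝓞 E) E x := by
      rw [← hxy, mul_div_cancel₀ _ (hne y hy0)]
    -- the identity
    have hid : C (y * (f.map v).prod) * g = C x * (f.map cl).prod := by
      apply t2_inj (E := E)
      rw [C_mul, map_mul, map_mul, map_mul, map_C, map_C, map_C,
        map_multiset_prod (MvPolynomial.map (algebraMap (𝓞 E) E)), Multiset.map_map, ← hfu, huC]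
      have h1 : f.map ((MvPolynomial.map (algebraMap (𝓞 E) E)) ∘ cl)
          = f.map (fun p => C (algebraMap (𝓞 E) E (v p)) * p) := by
        apply Multiset.map_congr rfl
        intro p _
        exact hcl p
      have h2 : (f.map fun p => (C (algebraMap (𝓞 E) E (v p)) : MvPolynomial ι E)).prod
          = C (algebraMap (𝓞 E) E (f.map v).prod) := by
        rw [map_multiset_prod, map_multiset_prod, Multiset.map_map, Multiset.map_map]
        rfl
      have h3 : (f.map fun p : MvPolynomial ι E => p).prod = f.prod := by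
        rw [Multiset.map_id']
      rw [h1, Multiset.prod_map_mul, h2, h3, ← hxy', C_mul]
      ring
    refine ⟨{p // p ∈ f.toFinset}, inferInstance, fun t => cl t.1, fun _ => G, x, hx0, ?_, ?_, ?_⟩
    · rintro ⟨p, hp⟩
      rw [Multiset.mem_toFinset] at hp
      show Irreducible (toE (cl p))
      rw [hcl p]
      exact (irreducible_isUnit_mul ((hne _ (hv p)).isUnit.map C)).2 (hf p hp)
    · rintro ⟨p, hp⟩ hdvd
      rw [Multiset.mem_toFinset] at hp
      have h1 : p ∣ MvPolynomial.map (algebraMap (𝓞 E) E) G := by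
        refine dvd_trans ?_ hdvd
        show p ∣ toE (cl p)
        rw [hcl p]
        exact dvd_mul_left _ _
      have h2 : p ∣ MvPolynomial.map (algebraMap (𝓞 E) E) g := by
        rw [← hfu]
        exact Dvd.dvd.mul_right (Multiset.dvd_prod hp) _
      exact (hf p hp).not_isUnit (h h2 h1)
    · intro P hP a h1 h2
      have h3 : eval a (C x * (f.map cl).prod) ∈ P.asIdeal := by
        rw [← hid, map_mul]
        exact P.asIdeal.mul_mem_left _ h1
      rw [map_mul, eval_C, map_multiset_prod, Multiset.map_map] at h3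
      have h4 := (P.isPrime.mem_or_mem h3).resolve_left hP
      rw [P.isPrime.multiset_prod_mem_iff_exists_mem] at h4
      obtain ⟨z, hz, hzP⟩ := h4
      rw [Multiset.mem_map] at hz
      obtain ⟨p, hp, rfl⟩ := hz
      exact ⟨⟨p, Multiset.mem_toFinset.2 hp⟩, hzP, h2⟩

end Esec

end Pool.Agent.Lib.MP_6a3dac_ag.Fam
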