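import Pool.Agent.Lib.MP_6a3dac_ag.Mg.G020

/-!
# The local conditions
-/

set_option autoImplicit false

namespace Pool.Agent.Lib.MP_6a3dac_ag.Fam

open MvPolynomial CategoryTheory Limits AlgebraicGeometry NumberField IsDedekindDomain Filter
open IsLocalRing Topology
open Pool.Agent.Lib.MP_6a3dac_ag.DNF Pool.Agent.Lib.MP_6a3dac_ag.Bert

section Fsec

/-- The values of a polynomial at points which are congruent. -/
theorem f3_eval_sub {ι R : Type} [CommRing R] (I : Ideal R) {a a' : ι → R}
    (ha : ∀ i, a' i - a i ∈ I) (p : MvPolynomial ι R) : eval a' p - eval a p ∈ I := by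
  induction p using MvPolynomial.induction_on with
  | C z => simp
  | add p q hp hq =>
    rw [map_add, map_add, show eval a' p + eval a' q - (eval a p + eval a q) =
      (eval a' p - eval a p) + (eval a' q - eval a q) by ring]
    exact I.add_mem hp hq
  | mul_X p n hp =>
    rw [map_mul, map_mul, eval_X, eval_X, show eval a' p * a' n - eval a p * a n =
      a' n * (eval a' p - eval a p) + eval a p * (a' n - a n) by ring]
    exact I.add_mem (I.mul_mem_left _ hp) (I.mul_mem_left _ (ha n))

/-- The specializations of a polynomial at points which are congruent. -/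
theorem f3_map_sub {ι σ R : Type} [CommRing R] (I : Ideal R) {a a' : ι → R}
    (ha : ∀ i, a' i - a i ∈ I) (f : MvPolynomial σ (MvPolynomial ι R)) :
    MvPolynomial.map (eval a') f - MvPolynomial.map (eval a) f ∈
      I.map (C : R →+* MvPolynomial σ R) := by
  induction f using MvPolynomial.induction_on with
  | C p =>
    rw [map_C, map_C, ← C_sub]
    exact Ideal.mem_map_of_mem _ (f3_eval_sub I ha p)
  | add p q hp hq =>
    rw [map_add, map_add, show MvPolynomial.map (eval a') p + MvPolynomial.map (eval a') q -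
      (MvPolynomial.map (eval a) p + MvPolynomial.map (eval a) q) =
      (MvPolynomial.map (eval a') p - MvPolynomial.map (eval a) p) +
      (MvPolynomial.map (eval a') q - MvPolynomial.map (eval a) q) by ring]
    exact Ideal.add_mem _ hp hq
  | mul_X p n hp =>
    rw [map_mul, map_mul, map_X, map_X, ← sub_mul]
    exact Ideal.mul_mem_right _ _ hp

theorem f3_surjective {ι σ R : Type} [CommRing R] (a : ι → R) :
    Function.Surjective (MvPolynomial.map (σ := σ) (eval a)) :=
  MvPolynomial.map_surjective _ fun z => ⟨C z, eval_C z⟩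

variable {E : Type} [Field E] [NumberField E] {ι : Type} {m c : ℕ}
  {J : HomIdeal (MvPolynomial ι (𝓞 E)) (m + c + 1)}

/-- If the family is nodal above a point, then the fibre is nodal over the prime. -/
theorem NodalAbove.nodalOver {P : HeightOneSpectrum (𝓞 E)} {a : ι → 𝓞 E}
    (h : NodalAbove P J a) : NodalOver P (fib J a) := by
  intro i 𝔮 h𝔮 hle hP
  have hbc : dId (fib J a) i = (dId J i).map (MvPolynomial.map (eval a)) := dId_bc _ J i
  rw [hbc] at hle ⊢
  refine NodalPt.map (eval a) (h i _ (Ideal.IsPrime.comap _) (Ideal.map_le_iff_le_comap.1 hle) ?_)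
  intro p
  rw [Ideal.mem_comap, map_C]
  constructor
  · intro hp
    have hcp : (Ideal.comap (C : 𝓞 E →+* MvPolynomial {l : Fin (m + c + 1) // l ≠ i} (𝓞 E))
        𝔮).IsPrime := Ideal.IsPrime.comap _
    have heq : P.asIdeal = Ideal.comap
        (C : 𝓞 E →+* MvPolynomial {l : Fin (m + c + 1) // l ≠ i} (𝓞 E)) 𝔮 :=
      P.isMaximal.eq_of_le hcp.ne_top (Ideal.map_le_iff_le_comap.1 hP)
    rw [heq]
    exact hp
  · intro hp
    exact hP (Ideal.mem_map_of_mem _ hp)

omit [NumberField E] in
/-- The local condition depends only on the class modulo the square of the prime. -/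
theorem LocOK.congr {P : HeightOneSpectrum (𝓞 E)} {a a' : ι → 𝓞 E} (h : LocOK P J a)
    (ha : ∀ i, a' i - a i ∈ P.asIdeal ^ 2) : LocOK P J a' := by
  rcases h with h | h
  · left
    intro i 𝔮 h𝔮 hle hP
    refine h i 𝔮 h𝔮 hle fun p => (hP p).trans ?_
    have h1 : eval a' p - eval a p ∈ P.asIdeal :=
      Ideal.pow_le_self two_ne_zero (f3_eval_sub _ ha p)
    constructor
    · intro h2
      have := P.asIdeal.sub_mem h2 h1
      rwa [sub_sub_cancel] at this
    · intro h2
      have := P.asIdeal.add_mem h1 h2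
      rwa [sub_add_cancel] at this
  · right
    intro i 𝔮 h𝔮 hle hP
    have hbc : ∀ b : ι → 𝓞 E, dId (fib J b) i = (dId J i).map (MvPolynomial.map (eval b)) :=
      fun b => dId_bc _ J i
    have hsq : ∀ f : MvPolynomial {l : Fin (m + c + 1) // l ≠ i} (MvPolynomial ι (𝓞 E)),
        MvPolynomial.map (eval a') f - MvPolynomial.map (eval a) f ∈ 𝔮 ^ 2 := by
      intro f
      have h1 := f3_map_sub (P.asIdeal ^ 2) ha f
      rw [Ideal.map_pow] at h1
      exact Ideal.pow_right_mono hP 2 h1
    have hlift : ∀ f ∈ dId (fib J a) i, ∃ F ∈ dId J i, MvPolynomial.map (eval a) F = f := by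
      intro f hf
      rw [hbc] at hf
      exact (Ideal.mem_map_iff_of_surjective _ (f3_surjective a)).1 hf
    have hmem : ∀ F ∈ dId J i, MvPolynomial.map (eval a') F ∈ dId (fib J a') i := by
      intro F hF
      rw [hbc]
      exact Ideal.mem_map_of_mem _ hF
    have hle' : dId (fib J a) i ≤ 𝔮 := by
      intro f hf
      obtain ⟨F, hF, rfl⟩ := hlift f hf
      have h1 := 𝔮.sub_mem (hle (hmem F hF)) (Ideal.pow_le_self two_ne_zero (hsq F))
      rwa [sub_sub_cancel] at h1
    obtain ⟨f, hf, hind⟩ := h i 𝔮 h𝔮 hle' hP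
    choose F hF hFf using fun k => hlift (f k) (hf k)
    refine ⟨fun k => MvPolynomial.map (eval a') (F k), fun k => hmem _ (hF k), ?_⟩
    intro b hb
    apply hind b
    have h1 : ∑ k, b k * f k = ∑ k, b k * MvPolynomial.map (eval a') (F k) -
        ∑ k, b k * (MvPolynomial.map (eval a') (F k) - MvPolynomial.map (eval a) (F k)) := by
      rw [← Finset.sum_sub_distrib]
      refine Finset.sum_congr rfl fun k _ => ?_
      rw [← hFf k]
      ring
    rw [h1]
    exact Ideal.sub_mem _ hb (Ideal.sum_mem _ fun k _ => Ideal.mul_mem_left _ _ (hsq (F k)))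

end Fsec

end Pool.Agent.Lib.MP_6a3dac_ag.Fam
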