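import Pool.Agent.Lib.MP_6a3dac_ag.Fam.D3
import Pool.Agent.Lib.MP_6a3dac_ag.Fam.E2
import Pool.Agent.Lib.MP_6a3dac_ag.Fam.E3
import Pool.Agent.Lib.MP_6a3dac_ag.Fam.F1
import Pool.Agent.Lib.MP_6a3dac_ag.Fam.F2
import Pool.Agent.Lib.MP_6a3dac_ag.Fam.F3
import Pool.Agent.Lib.MP_6a3dac_ag.Bert.Main

/-!
# The density of the good fibres
-/

set_option autoImplicit false

namespace Pool.Agent.Lib.MP_6a3dac_ag.Fam

open MvPolynomial CategoryTheory Limits AlgebraicGeometry NumberField IsDedekindDomain Filter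
open IsLocalRing Topology
open Pool.Agent.Lib.MP_6a3dac_ag.DNF Pool.Agent.Lib.MP_6a3dac_ag.Bert
open Pool.Agent.Lib.MP_6a3dac_ag.Maj

/-- The lower density of the `a` in `𝓞_E^ι` with the property `S`. -/
noncomputable def lowerDens {E : Type} [Field E] [NumberField E] {s : ℕ} {ι : Type}
    [Fintype ι] [DecidableEq ι] (b : Module.Basis (Fin s) ℤ (𝓞 E)) (S : (ι → 𝓞 E) → Prop) : ℝ :=
  liminf (fun H : ℕ => Bert.proportion b S H) atTop

/-- The generic fibre of the member with the coordinates `a` is smooth of dimension `m` and the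
local condition holds at all primes. -/
def Good {E : Type} [Field E] [NumberField E] {ι : Type} {m c : ℕ}
    (J : HomIdeal (MvPolynomial ι (𝓞 E)) (m + c + 1)) (a : ι → 𝓞 E) : Prop :=
  GenFibreSmooth (fib J a) ∧ ∀ P : HeightOneSpectrum (𝓞 E), LocOK P J a

/-- Good members have models. -/
theorem Good.hasModel {E : Type} [Field E] [NumberField E] {ι : Type} {m c : ℕ}
    {J : HomIdeal (MvPolynomial ι (𝓞 E)) (m + c + 1)} {a : ι → 𝓞 E} (h : Good J a) :
    HasModel (fib J a) := by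
  refine hasModel_of_local_fam h.1 fun P => ?_
  rcases h.2 P with h1 | h1
  · exact Or.inr h1.nodalOver
  · exact Or.inl h1

theorem ff4_proportion {E : Type} [Field E] [NumberField E] {s : ℕ} {ι : Type} [Fintype ι]
    [DecidableEq ι] (b : Module.Basis (Fin s) ℤ (𝓞 E)) (S : (ι → 𝓞 E) → Prop) (H : ℕ) :
    Bert.proportion b S H = Sys.prop (fun u : ι × Fin s → ℤ => S (coeffs b u)) H := by
  rw [Sys.prop, Bert.proportion]

theorem ff4_prop_le_one {κ : Type} [Fintype κ] [DecidableEq κ] (S : (κ → ℤ) → Prop) (H : ℕ) :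
    Sys.prop S H ≤ 1 := by
  have h1 := prop_compl S H
  have h2 := prop_nonneg (fun u => ¬ S u) H
  linarith

/-- Sets of density zero do not change the density. -/
theorem ff4_tendsto {κ : Type} [Fintype κ] [DecidableEq κ] {S S₁ S₂ : (κ → ℤ) → Prop} {Δ : ℝ}
    (h1 : Tendsto (Sys.prop S₁) atTop (𝓝 Δ)) (h2 : UD S₂ 0) (h : ∀ u, S₁ u → S u ∨ S₂ u)
    (h' : ∀ u, S u → S₁ u) : Tendsto (Sys.prop S) atTop (𝓝 Δ) := by
  have h3 : Tendsto (Sys.prop S₂) atTop (𝓝 0) := by
    rw [Metric.tendsto_atTop']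
    intro ε hε
    obtain ⟨H₀, hH₀⟩ := eventually_atTop.1 (h2 (ε / 2) (by linarith))
    refine ⟨H₀, fun H hH => ?_⟩
    have h4 := hH₀ H hH.le
    rw [Real.dist_eq, sub_zero, abs_of_nonneg (prop_nonneg _ _)]
    linarith
  have h4 : Tendsto (fun H => Sys.prop S₁ H - Sys.prop S₂ H) atTop (𝓝 Δ) := by
    simpa using h1.sub h3
  refine tendsto_of_tendsto_of_tendsto_of_le_of_le h4 h1 (fun H => ?_)
    fun H => prop_mono h' H
  have h5 := (prop_mono h H).trans (prop_or H)
  simp only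
  linarith

/-- **Main theorem.** The density of the good members is the product of the local densities. -/
theorem families_good {E : Type} [Field E] [NumberField E] {s : ℕ}
    (b : Module.Basis (Fin s) ℤ (𝓞 E)) {ι : Type} [Fintype ι] [DecidableEq ι] {m c : ℕ}
    (J : HomIdeal (MvPolynomial ι (𝓞 E)) (m + c + 1)) (h1 : GenSmooth J)
    (h2 : NodalCodim J) :
    ∃ Δ : ℝ, HasProd (locDensity J) Δ ∧
      ((∀ P : HeightOneSpectrum (𝓞 E), ∃ a, LocOK P J a) → 0 < Δ) ∧
      Tendsto (fun H : ℕ => Bert.proportion b (Good J) H) atTop (𝓝 Δ) ∧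
      ∀ a, Good J a → HasModel (fib J a) := by
  obtain ⟨g, G, hrel, hnod⟩ := h2
  obtain ⟨D, hD, hgen⟩ := exists_generic h1
  obtain ⟨m₀, hm₀, hnod'⟩ := exists_nodal hnod
  obtain ⟨T, hT, g', G', m₁, hm₁, hirr, hndvd, hpair⟩ := exists_irred_pairs g G hrel
  obtain ⟨Δ, hprod, hlim, hpos⟩ := density_two b g' G' hirr hndvd (mul_ne_zero hm₀ hm₁)
    (okClasses J) (fun P a hP ha => by
      have hP0 : m₀ ∉ P.asIdeal := fun h => hP (Ideal.mul_mem_right _ _ h)
      have hP1 : m₁ ∉ P.asIdeal := fun h => hP (Ideal.mul_mem_left _ _ h)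
      have h3 : ¬ (eval a g ∉ P.asIdeal ∨ eval a G ∉ P.asIdeal) := fun h4 =>
        ha ⟨a, fun _ => rfl, Or.inl (hnod' P hP0 a h4)⟩
      push Not at h3
      exact hpair P hP1 a h3.1 h3.2)
  refine ⟨Δ, hprod, fun h3 => hpos fun P => ?_, ?_, fun a ha => ha.hasModel⟩
  · obtain ⟨a, ha⟩ := h3 P
    exact ⟨fun i => Ideal.Quotient.mk (P.asIdeal ^ 2) (a i), a, fun _ => rfl, ha⟩
  · have h3 := ff4_tendsto hlim (UD_eval_eq_zero b hD)
      (S := fun u : ι × Fin s → ℤ => Good J (coeffs b u)) (fun u hu => ?_)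
      fun u hu P => ⟨coeffs b u, fun _ => rfl, hu.2 P⟩
    · refine h3.congr fun H => ?_
      rw [ff4_proportion]
    · by_cases hDu : eval (coeffs b u) D = 0
      · exact Or.inr hDu
      · refine Or.inl ⟨hgen _ hDu, fun P => ?_⟩
        obtain ⟨a, ha, hok⟩ := hu P
        refine hok.congr fun i => ?_
        rw [← Ideal.Quotient.mk_eq_mk_iff_sub_mem]
        exact (ha i).symm

/-- TASK F4: **Main theorem.** -/
theorem families {E : Type} [Field E] [NumberField E] {s : ℕ}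
    (b : Module.Basis (Fin s) ℤ (𝓞 E)) {ι : Type} [Fintype ι] [DecidableEq ι] {m c : ℕ}
    (J : HomIdeal (MvPolynomial ι (𝓞 E)) (m + c + 1)) (h1 : GenSmooth J)
    (h2 : NodalCodim J) :
    ∃ Δ : ℝ, HasProd (locDensity J) Δ ∧
      ((∀ P : HeightOneSpectrum (𝓞 E), ∃ a, LocOK P J a) → 0 < Δ) ∧
      Δ ≤ lowerDens b fun a => HasModel (fib J a) := by
  obtain ⟨Δ, hprod, hpos, hlim, hmod⟩ := families_good b J h1 h2
  refine ⟨Δ, hprod, hpos, ?_⟩
  have hco : IsCoboundedUnder (· ≥ ·) atTop fun H : ℕ =>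
      Bert.proportion b (fun a => HasModel (fib J a)) H := by
    refine IsBoundedUnder.isCoboundedUnder_ge ⟨1, ?_⟩
    rw [eventually_map]
    refine Eventually.of_forall fun H => ?_
    rw [ff4_proportion]
    exact ff4_prop_le_one _ H
  refine le_of_forall_pos_le_add fun ε hε => ?_
  have h3 : Δ - ε ≤ lowerDens b fun a => HasModel (fib J a) := by
    refine le_liminf_of_le hco ?_
    filter_upwards [hlim.eventually (lt_mem_nhds (show Δ - ε < Δ by linarith))] with H h4
    refine h4.le.trans ?_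
    rw [ff4_proportion, ff4_proportion]
    exact prop_mono (fun u hu => hmod _ hu) H
  linarith

end Pool.Agent.Lib.MP_6a3dac_ag.Fam
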