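import Mathlib

/-!
# Infinite products of numbers in the unit interval
-/

set_option autoImplicit false

namespace Pool.Agent.Lib.MP_6a3dac_ag.Fam

open Filter Topology

section Prod

variable {I : Type} [DecidableEq I]

theorem ff5_prod_le {μ : I → ℝ} (h0 : ∀ P, 0 ≤ μ P) (h1 : ∀ P, μ P ≤ 1) {s t : Finset I}
    (h : s ⊆ t) : ∏ P ∈ t, μ P ≤ ∏ P ∈ s, μ P := by
  rw [← Finset.prod_sdiff h]
  exact mul_le_of_le_one_left (Finset.prod_nonneg fun P _ => h0 P)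
    (Finset.prod_le_one (fun P _ => h0 P) fun P _ => h1 P)

omit [DecidableEq I] in
theorem ff5_bdd {μ : I → ℝ} (h0 : ∀ P, 0 ≤ μ P) :
    BddBelow (Set.range fun s : Finset I => ∏ P ∈ s, μ P) := by
  refine ⟨0, ?_⟩
  rintro _ ⟨s, rfl⟩
  exact Finset.prod_nonneg fun P _ => h0 P

/-- The product of numbers in the unit interval is the infimum of the finite products. -/
theorem ff5_hasProd {μ : I → ℝ} (h0 : ∀ P, 0 ≤ μ P) (h1 : ∀ P, μ P ≤ 1) :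
    HasProd μ (⨅ s : Finset I, ∏ P ∈ s, μ P) := by
  have hanti : Antitone fun s : Finset I => ∏ P ∈ s, μ P := fun s t h => ff5_prod_le h0 h1 h
  have := tendsto_atTop_ciInf hanti (ff5_bdd h0)
  simpa [HasProd] using this

theorem ff5_le_prod {μ : I → ℝ} (h0 : ∀ P, 0 ≤ μ P) (h1 : ∀ P, μ P ≤ 1) {Δ : ℝ}
    (h : HasProd μ Δ) (s : Finset I) : Δ ≤ ∏ P ∈ s, μ P := by
  rw [h.unique (ff5_hasProd h0 h1)]
  exact ciInf_le (ff5_bdd h0) s

/-- The difference of two products. -/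
theorem ff5_prod_sub {α c : I → ℝ} (h0 : ∀ P, 0 ≤ c P) (h1 : ∀ P, α P ≤ 1)
    (h : ∀ P, c P ≤ α P) (s : Finset I) :
    ∏ P ∈ s, α P - ∏ P ∈ s, c P ≤ ∑ P ∈ s, (α P - c P) := by
  induction s using Finset.induction_on with
  | empty => simp
  | insert P s hP ih =>
    rw [Finset.prod_insert hP, Finset.prod_insert hP, Finset.sum_insert hP]
    have e1 : 0 ≤ ∏ P ∈ s, c P := Finset.prod_nonneg fun P _ => h0 P
    have e2 : ∏ P ∈ s, c P ≤ 1 := Finset.prod_le_one (fun P _ => h0 P) fun P _ => (h P).trans (h1 P)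
    have e3 : 0 ≤ ∏ P ∈ s, α P - ∏ P ∈ s, c P :=
      sub_nonneg.2 (Finset.prod_le_prod (fun P _ => h0 P) fun P _ => h P)
    have e4 : 0 ≤ α P - c P := sub_nonneg.2 (h P)
    have e5 : α P * ∏ P ∈ s, α P - c P * ∏ P ∈ s, c P =
        α P * (∏ P ∈ s, α P - ∏ P ∈ s, c P) + (α P - c P) * ∏ P ∈ s, c P := by ring
    rw [e5]
    have e6 : α P * (∏ P ∈ s, α P - ∏ P ∈ s, c P) ≤ 1 * (∏ P ∈ s, α P - ∏ P ∈ s, c P) :=
      mul_le_mul_of_nonneg_right (h1 P) e3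
    have e7 : (α P - c P) * ∏ P ∈ s, c P ≤ (α P - c P) * 1 := mul_le_mul_of_nonneg_left e2 e4
    linarith

/-- Only finitely many factors of a positive product are at most `1 / 2`. -/
theorem ff5_finite {μ : I → ℝ} (h0 : ∀ P, 0 ≤ μ P) (h1 : ∀ P, μ P ≤ 1) {Δ : ℝ}
    (h : HasProd μ Δ) (hΔ : 0 < Δ) : {P | μ P ≤ 1 / 2}.Finite := by
  by_contra hinf
  obtain ⟨n, hn⟩ := exists_pow_lt_of_lt_one hΔ (show (1 / 2 : ℝ) < 1 by norm_num)
  obtain ⟨s, hs, hcard⟩ := Set.Infinite.exists_subset_card_eq hinf n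
  have e1 := ff5_le_prod h0 h1 h s
  have e2 : ∏ P ∈ s, μ P ≤ ∏ _P ∈ s, (1 / 2 : ℝ) :=
    Finset.prod_le_prod (fun P _ => h0 P) fun P hP => hs hP
  rw [Finset.prod_const, hcard] at e2
  linarith

variable {c : ℕ → I → ℝ} (hc0 : ∀ k P, 0 ≤ c k P) (hc1 : ∀ k P, c k P ≤ 1) {β : I → ℝ}
  (hβ0 : ∀ P, 0 < β P) (hβ1 : ∀ P, β P ≤ 1) {B : Finset I} (hB : ∀ P, P ∉ B → c 2 P = β P)
  {Δ₂ : ℝ} (hΔ₂ : 0 < Δ₂) (hβ : HasProd β Δ₂)

omit [DecidableEq I] in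
include hc1 in
theorem ff5_bddAbove (P : I) : BddAbove (Set.range fun k => c k P) := by
  refine ⟨1, ?_⟩
  rintro _ ⟨k, rfl⟩
  exact hc1 k P

omit [DecidableEq I] in
include hc0 hc1 in
theorem ff5_sup_mem (P : I) : 0 ≤ (⨆ k, c k P) ∧ (⨆ k, c k P) ≤ 1 :=
  ⟨(hc0 0 P).trans (le_ciSup (ff5_bddAbove hc1 P) 0), ciSup_le fun k => hc1 k P⟩

include hc0 hc1 hβ0 hβ1 hB hΔ₂ hβ in
/-- The product of the suprema is positive if all factors are. -/
theorem ff5_pos (hpos : ∀ P, 0 < ⨆ k, c k P) :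
    0 < ⨅ s : Finset I, ∏ P ∈ s, ⨆ k, c k P := by
  have hs0 : ∀ P, 0 ≤ ⨆ k, c k P := fun P => (ff5_sup_mem hc0 hc1 P).1
  have hs1 : ∀ P, (⨆ k, c k P) ≤ 1 := fun P => (ff5_sup_mem hc0 hc1 P).2
  have h1 : 0 < ∏ P ∈ B, ⨆ k, c k P := Finset.prod_pos fun P _ => hpos P
  refine lt_of_lt_of_le (mul_pos hΔ₂ h1) (le_ciInf fun s => ?_)
  refine le_trans ?_ (ff5_prod_le hs0 hs1 (Finset.subset_union_left : s ⊆ s ∪ B))
  rw [← Finset.prod_sdiff (Finset.subset_union_right : B ⊆ s ∪ B)]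
  refine mul_le_mul_of_nonneg_right ?_ h1.le
  refine (ff5_le_prod (fun P => (hβ0 P).le) hβ1 hβ ((s ∪ B) \ B)).trans ?_
  refine Finset.prod_le_prod (fun P _ => (hβ0 P).le) fun P hP => ?_
  rw [← hB P (Finset.mem_sdiff.1 hP).2]
  exact le_ciSup (ff5_bddAbove hc1 P) 2

include hc0 hc1 hβ0 hβ1 hB hΔ₂ hβ in
/-- The product of the suprema is approximated by products with suitable exponents. -/
theorem ff5_approx {η : ℝ} (hη : 0 < η) :
    ∃ (F : Finset I) (k : I → ℕ), (∀ P, P ∉ F → k P = 2) ∧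
      ∀ t : Finset I, (⨅ s : Finset I, ∏ P ∈ s, ⨆ k, c k P) - η ≤ ∏ P ∈ t, c (k P) P := by
  have hs0 : ∀ P, 0 ≤ ⨆ k, c k P := fun P => (ff5_sup_mem hc0 hc1 P).1
  have hs1 : ∀ P, (⨆ k, c k P) ≤ 1 := fun P => (ff5_sup_mem hc0 hc1 P).2
  set Δ : ℝ := ⨅ s : Finset I, ∏ P ∈ s, ⨆ k, c k P with hΔdef
  have hΔle : ∀ s : Finset I, Δ ≤ ∏ P ∈ s, ⨆ k, c k P := fun s => ciInf_le (ff5_bdd hs0) s
  have hΔ1 : Δ ≤ 1 := by simpa using hΔle ∅
  have hpn : ∀ (k : I → ℕ) (t : Finset I), 0 ≤ ∏ P ∈ t, c (k P) P := fun k t =>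
    Finset.prod_nonneg fun P _ => hc0 _ P
  by_cases hsmall : Δ - η ≤ 0
  · exact ⟨∅, fun _ => 2, fun _ _ => rfl, fun t => hsmall.trans (hpn _ t)⟩
  push Not at hsmall
  have hη1 : η < 1 := by linarith
  -- the finite set
  have hd : (0 : ℝ) < 1 - η / 2 := by linarith
  have hlt : Δ₂ < Δ₂ / (1 - η / 2) := by
    rw [lt_div_iff₀ hd]
    nlinarith
  have hev : ∀ᶠ s : Finset I in atTop, ∏ P ∈ s, β P < Δ₂ / (1 - η / 2) := by
    have h1 : Tendsto (fun s : Finset I => ∏ P ∈ s, β P) atTop (𝓝 Δ₂) := by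
      simpa [HasProd] using hβ
    exact h1.eventually_lt_const hlt
  obtain ⟨F, hF1, hF2⟩ := (hev.and (eventually_ge_atTop B)).exists
  have hF3 : (1 - η / 2) * ∏ P ∈ F, β P ≤ Δ₂ := by
    rw [lt_div_iff₀ hd] at hF1
    linarith
  have hβF : 0 < ∏ P ∈ F, β P := Finset.prod_pos fun P _ => hβ0 P
  -- the exponents
  have hδ : 0 < η / (2 * (F.card + 1)) := by positivity
  have hk : ∀ P, ∃ k, (⨆ k, c k P) - η / (2 * (F.card + 1)) < c k P := fun P =>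
    exists_lt_of_lt_ciSup (by linarith)
  choose k₁ hk₁ using hk
  let k : I → ℕ := fun P => if P ∈ F then k₁ P else 2
  have hkF : ∀ P, P ∈ F → k P = k₁ P := fun P hP => if_pos hP
  have hkF' : ∀ P, P ∉ F → k P = 2 := fun P hP => if_neg hP
  refine ⟨F, k, hkF', fun t => ?_⟩
  refine le_trans ?_ (ff5_prod_le (fun P => hc0 _ P) (fun P => hc1 _ P)
    (Finset.subset_union_left : t ⊆ t ∪ F))
  rw [← Finset.prod_sdiff (Finset.subset_union_right : F ⊆ t ∪ F)]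
  have h1 : 1 - η / 2 ≤ ∏ P ∈ (t ∪ F) \ F, c (k P) P := by
    have e1 : ∏ P ∈ (t ∪ F) \ F, c (k P) P = ∏ P ∈ (t ∪ F) \ F, β P := by
      refine Finset.prod_congr rfl fun P hP => ?_
      have hPF := (Finset.mem_sdiff.1 hP).2
      rw [hkF' P hPF, hB P fun h => hPF (hF2 h)]
    rw [e1]
    have e2 := ff5_le_prod (fun P => (hβ0 P).le) hβ1 hβ (t ∪ F)
    rw [← Finset.prod_sdiff (Finset.subset_union_right : F ⊆ t ∪ F)] at e2
    exact le_of_mul_le_mul_right (hF3.trans e2) hβF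
  have h2 : Δ - η / 2 ≤ ∏ P ∈ F, c (k P) P := by
    have e1 := ff5_prod_sub (α := fun P => ⨆ k, c k P) (c := fun P => c (k P) P)
      (fun P => hc0 _ P) hs1 (fun P => le_ciSup (ff5_bddAbove hc1 P) (k P)) F
    have e2 : ∑ P ∈ F, ((⨆ k, c k P) - c (k P) P) ≤ ∑ _P ∈ F, η / (2 * (F.card + 1)) :=
      Finset.sum_le_sum fun P hP => by
        rw [hkF P hP]
        linarith [hk₁ P]
    rw [Finset.sum_const, nsmul_eq_mul] at e2
    have e3 : (F.card : ℝ) * (η / (2 * (F.card + 1))) ≤ η / 2 := by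
      rw [mul_div_assoc', div_le_div_iff₀ (by positivity) (by norm_num)]
      nlinarith
    linarith [hΔle F]
  calc Δ - η ≤ (1 - η / 2) * (Δ - η / 2) := by nlinarith
    _ ≤ (∏ P ∈ (t ∪ F) \ F, c (k P) P) * (Δ - η / 2) :=
        mul_le_mul_of_nonneg_right h1 (by linarith)
    _ ≤ _ := mul_le_mul_of_nonneg_left h2 (Finset.prod_nonneg fun P _ => hc0 _ P)

end Prod

end Pool.Agent.Lib.MP_6a3dac_ag.Fam
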