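import Pool.Agent.Lib.MP_6a3dac_ag.Fam.Defs
import Pool.Agent.Lib.MP_6a3dac_ag.Dens.Pair

/-!
# Sections of a projective scheme by several forms
-/

set_option autoImplicit false

namespace Pool.Agent.Lib.MP_6a3dac_ag.Fam

open MvPolynomial NumberField
open Pool.Agent.Lib.MP_6a3dac_ag.DNF Pool.Agent.Lib.MP_6a3dac_ag.Bert

/-- The universal form of degree `d k`. -/
noncomputable def uForm (R : Type) [CommRing R] {n r : ℕ} (d : Fin r → ℕ) (k : Fin r) :
    MvPolynomial (Fin (n + 1)) (MvPolynomial (Σ k, Mono n (d k)) R) :=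
  form fun μ => X ⟨k, μ⟩

/-- The ideal generated by the ideal `I` and the universal forms of degrees `d k`. -/
noncomputable def secFamSpan {R : Type} [CommRing R] {n r : ℕ} (I : HomIdeal R (n + 1))
    (d : Fin r → ℕ) : Ideal (MvPolynomial (Fin (n + 1)) (MvPolynomial (Σ k, Mono n (d k)) R)) :=
  I.ideal.map (MvPolynomial.map C) ⊔ Ideal.span (Set.range (uForm R d))

/-- The ideal `secFamSpan I d` is homogeneous. -/
theorem secFamSpan_homog {R : Type} [CommRing R] {n r : ℕ} (I : HomIdeal R (n + 1))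
    (d : Fin r → ℕ) : ∀ f ∈ secFamSpan I d, ∀ i : ℕ, homogeneousComponent i f ∈ secFamSpan I d := by
  intro f hf i
  let _ := MvPolynomial.gradedAlgebra (σ := Fin (n + 1)) (R := MvPolynomial (Σ k, Mono n (d k)) R)
  let _ := MvPolynomial.gradedAlgebra (σ := Fin (n + 1)) (R := R)
  have h0 : I.ideal.map (MvPolynomial.map (C : R →+* MvPolynomial (Σ k, Mono n (d k)) R)) =
      Ideal.span ((MvPolynomial.map (C : R →+* MvPolynomial (Σ k, Mono n (d k)) R)) ''
        {g | g ∈ I.ideal ∧ ∃ j, g.IsHomogeneous j}) := by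
    apply le_antisymm
    · rw [Ideal.map_le_iff_le_comap]
      intro g hg
      rw [Ideal.mem_comap, ← sum_homogeneousComponent g, map_sum]
      exact Ideal.sum_mem _ fun j _ => Ideal.subset_span
        ⟨_, ⟨I.homog g hg j, j, homogeneousComponent_isHomogeneous j g⟩, rfl⟩
    · rw [Ideal.span_le]
      rintro _ ⟨g, ⟨hg, _⟩, rfl⟩
      exact Ideal.mem_map_of_mem _ hg
  have h1 : (secFamSpan I d).IsHomogeneous
      (homogeneousSubmodule (Fin (n + 1)) (MvPolynomial (Σ k, Mono n (d k)) R)) := by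
    rw [secFamSpan, h0, ← Ideal.span_union]
    apply Ideal.homogeneous_span
    rintro x (⟨g, ⟨_, j, hj⟩, rfl⟩ | ⟨k, rfl⟩)
    · exact ⟨j, hj.map _⟩
    · exact ⟨d k, isHomogeneous_form _⟩
  have h2 := h1 i hf
  rwa [show DirectSum.decompose
      (homogeneousSubmodule (Fin (n + 1)) (MvPolynomial (Σ k, Mono n (d k)) R)) f i =
    MvPolynomial.decomposition.decompose' f i from rfl,
    MvPolynomial.decomposition.decompose'_apply] at h2

/-- The family of the sections of the scheme defined by `I` by `r` forms of degrees `d k`; the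
parameters are the coefficients of the forms. -/
noncomputable def secFam {R : Type} [CommRing R] {n r : ℕ} (I : HomIdeal R (n + 1))
    (d : Fin r → ℕ) : HomIdeal (MvPolynomial (Σ k, Mono n (d k)) R) (n + 1) where
  ideal := secFamSpan I d
  homog := secFamSpan_homog I d

/-- The generic fibre of `Proj 𝓞_E[x] / I` is smooth of dimension `e`. -/
def SmoothOfDim {E : Type} [Field E] [NumberField E] {n : ℕ} (e : ℕ)
    (I : HomIdeal (𝓞 E) (n + 1)) : Prop :=
  ∀ (i : Fin (n + 1)) (𝔮 : Ideal (MvPolynomial {l : Fin (n + 1) // l ≠ i} (𝓞 E))),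
    𝔮.IsPrime → dId I i ≤ 𝔮 → (∀ z : 𝓞 E, C z ∈ 𝔮 → z = 0) →
      ∃ U : Std (𝓞 E) {l : Fin (n + 1) // l ≠ i}, U.For (dId I i) ∧ U.T.card = e ∧ U.h ∉ 𝔮

/-- The dehomogenization commutes with ring homomorphisms. -/
theorem fs0_map_dehom {R S : Type} [CommRing R] [CommRing S] (θ : R →+* S) {n : ℕ}
    (i : Fin (n + 1)) (q : MvPolynomial (Fin (n + 1)) R) :
    dehom i (MvPolynomial.map θ q) = MvPolynomial.map θ (dehom i q) := by
  induction q using MvPolynomial.induction_on with
  | C a => rw [dehom_C, map_C, map_C, dehom_C]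
  | add a b ha hb => rw [map_add, map_add, map_add, map_add, ha, hb]
  | mul_X a k ha =>
    rw [map_mul, map_mul, map_mul, map_mul, ha]
    congr 1
    by_cases hk : k = i
    · subst hk
      rw [dehom_X_self, map_one, map_X, dehom_X_self]
    · rw [map_X, show k = (⟨k, hk⟩ : {l : Fin (n + 1) // l ≠ i}).1 from rfl, dehom_X, dehom_X,
        map_X]

/-- The dehomogenized ideal. -/
theorem dId_secFam {R : Type} [CommRing R] {n r : ℕ} (I : HomIdeal R (n + 1)) (d : Fin r → ℕ)
    (i : Fin (n + 1)) : dId (secFam I d) i = (dId I i).map (MvPolynomial.map C) ⊔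
      Ideal.span (Set.range fun k => dehom i (uForm R d k)) := by
  have h1 : (dehom i : MvPolynomial (Fin (n + 1)) (MvPolynomial (Σ k, Mono n (d k)) R) →ₐ[_]
      _).toRingHom.comp (MvPolynomial.map C) =
      (MvPolynomial.map C).comp (dehom i : _ →ₐ[R] _).toRingHom :=
    RingHom.ext fun q => fs0_map_dehom _ i q
  have h3 : (I.ideal.map (MvPolynomial.map (C : R →+* MvPolynomial (Σ k, Mono n (d k)) R))).map
      (dehom i : MvPolynomial (Fin (n + 1)) (MvPolynomial (Σ k, Mono n (d k)) R) →ₐ[_]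
        _).toRingHom =
      (I.ideal.map (dehom i : _ →ₐ[R] _).toRingHom).map (MvPolynomial.map C) := by
    rw [Ideal.map_map, h1, Ideal.map_map]
  have h5 : (secFam I d).ideal = I.ideal.map (MvPolynomial.map C) ⊔
      Ideal.span (Set.range (uForm R d)) := rfl
  rw [dId, h5, Ideal.map_sup, Ideal.map_span, ← Set.range_comp]
  exact congrArg (· ⊔ Ideal.span (Set.range fun k => dehom i (uForm R d k))) h3

/-- The monomial `X_i ^ (d - 1) * X_j`. -/
def fs0_bm {n d : ℕ} (hd : 1 ≤ d) (i : Fin (n + 1)) (j : {l : Fin (n + 1) // l ≠ i}) : Mono n d :=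
  ⟨fun m => if m = i then ⟨d - 1, by omega⟩ else if m = j.1 then ⟨1, by omega⟩ else 0, by
    have h : ∀ m, (((if m = i then ⟨d - 1, by omega⟩ else if m = j.1 then ⟨1, by omega⟩ else 0 :
        Fin (d + 1)) : Fin (d + 1)) : ℕ) =
        (if m = i then d - 1 else 0) + (if m = j.1 then 1 else 0) := by
      intro m
      by_cases h1 : m = i
      · subst h1; simp [j.2.symm]
      · by_cases h2 : m = j.1
        · subst h2; simp [h1]
        · simp [h1, h2]
    simp only [h, Finset.sum_add_distrib, Finset.sum_ite_eq', Finset.mem_univ, if_true]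
    omega⟩

theorem fs0_mon_bm {n d : ℕ} (hd : 1 ≤ d) (i : Fin (n + 1)) (j : {l : Fin (n + 1) // l ≠ i}) :
    DensPair.mon (fs0_bm hd i j) = X i ^ (d - 1) * X j.1 := by
  have h := DensPair.prod_two i j (fun m => ((fs0_bm hd i j).1 m : ℕ)) (by
    intro m h1 h2
    simp [fs0_bm, h1, h2])
  rw [DensPair.mon, h]
  congr 1
  · simp [fs0_bm]
  · simp [fs0_bm, j.2]

/-- The dehomogenized monomials. -/
theorem exists_monos {n d : ℕ} (hd : 1 ≤ d) (i : Fin (n + 1)) :
    ∃ (mon : Mono n d → MvPolynomial {l : Fin (n + 1) // l ≠ i} ℤ) (μ₀ : Mono n d)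
      (μ₁ : {l : Fin (n + 1) // l ≠ i} → Mono n d), mon μ₀ = 1 ∧ (∀ e, mon (μ₁ e) = X e) ∧
      ∀ (R : Type) [CommRing R] (a : Mono n d → R), dehom i (form a) =
        ∑ μ, C (a μ) * MvPolynomial.map (Int.castRingHom R) (mon μ) := by
  refine ⟨fun μ => dehom i (DensPair.mon μ), DensPair.cm n d i, fs0_bm hd i, ?_, fun e => ?_,
    fun R _ a => ?_⟩
  · change dehom i (DensPair.mon (DensPair.cm n d i)) = 1
    rw [DensPair.mon_cm, map_pow, dehom_X_self, one_pow]
  · change dehom i (DensPair.mon (fs0_bm hd i e)) = X e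
    rw [fs0_mon_bm, map_mul, map_pow, dehom_X_self, one_pow, one_mul, dehom_X]
  · rw [DensPair.form_eq, map_sum]
    refine Finset.sum_congr rfl fun μ _ => ?_
    rw [map_mul, dehom_C, fs0_map_dehom]
    rfl

end Pool.Agent.Lib.MP_6a3dac_ag.Fam
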