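import Pool.Agent.Lib.MP_6a3dac_ag.Mg.G020
import Pool.Agent.Lib.MP_6a3dac_ag.Mg.G042
import Pool.Agent.Lib.MP_6a3dac_ag.Fam.E3
import Pool.Agent.Lib.MP_6a3dac_ag.Fam.F4
import Pool.Agent.Lib.MP_6a3dac_ag.Fam.F5a
import Pool.Agent.Lib.MP_6a3dac_ag.Mg.G043
import Pool.Agent.Lib.MP_6a3dac_ag.Mg.G013

/-!
# The local-global principle for regular models in families
-/

set_option autoImplicit false

namespace Pool.Agent.Lib.MP_6a3dac_ag.Fam

open MvPolynomial CategoryTheory Limits AlgebraicGeometry NumberField IsDedekindDomain Filter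
open IsLocalRing Topology
open Pool.Agent.Lib.MP_6a3dac_ag.DNF Pool.Agent.Lib.MP_6a3dac_ag.Bert
open Pool.Agent.Lib.MP_6a3dac_ag.Maj

section Fsec

variable {E : Type} [Field E] [NumberField E] {ι : Type} {m c : ℕ}

/-- The share of the good classes modulo `P ^ k`. -/
noncomputable def goodShare (J : HomIdeal (MvPolynomial ι (𝓞 E)) (m + c + 1)) (k : ℕ)
    (P : HeightOneSpectrum (𝓞 E)) : ℝ :=
  (Nat.card {x : ι → 𝓞 E ⧸ P.asIdeal ^ k // LocGood J P k x} : ℝ) /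
    Nat.card (ι → 𝓞 E ⧸ P.asIdeal ^ k)

theorem ff5_finite_quot (P : HeightOneSpectrum (𝓞 E)) (k : ℕ) :
    Finite (𝓞 E ⧸ P.asIdeal ^ k) :=
  Ideal.finiteQuotientOfFreeOfNeBot (P.asIdeal ^ k) (pow_ne_zero k P.ne_bot)

theorem ff5_share_mem [Finite ι] (P : HeightOneSpectrum (𝓞 E)) (k : ℕ)
    (S : Set (ι → 𝓞 E ⧸ P.asIdeal ^ k)) :
    0 ≤ (Nat.card S : ℝ) / Nat.card (ι → 𝓞 E ⧸ P.asIdeal ^ k) ∧
      (Nat.card S : ℝ) / Nat.card (ι → 𝓞 E ⧸ P.asIdeal ^ k) ≤ 1 := by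
  have := ff5_finite_quot P k
  refine ⟨by positivity, div_le_one_of_le₀ ?_ (by positivity)⟩
  exact_mod_cast Nat.card_le_card_of_injective (Subtype.val : S → _) Subtype.val_injective

/-- Good members have models. -/
theorem hasModel_of_forall_hasModelAt {J : HomIdeal (𝓞 E) (m + c + 1)} (hgen : GenFibreSmooth J)
    (h : ∀ P : HeightOneSpectrum (𝓞 E), HasModelAt E P (hProjTo (bc (algebraMap (𝓞 E) E) J))) :
    HasModel J :=
  ⟨smooth_of_smoothPt _ hgen.smoothPt, hasRegularModel_of_forall_hasModelAt h⟩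

theorem LocOK.locGood' {J : HomIdeal (MvPolynomial ι (𝓞 E)) (m + c + 1)}
    {P : HeightOneSpectrum (𝓞 E)} {a : ι → 𝓞 E} (h : LocOK P J a) {k : ℕ} (hk : k = 2) :
    LocGood J P k (fun i => Ideal.Quotient.mk (P.asIdeal ^ k) (a i)) := by
  subst hk
  exact h.locGood

omit [NumberField E] in
/-- An irreducible polynomial has at least one variable. -/
theorem ff5_nonempty [IsEmpty ι] {p : MvPolynomial ι E} (hp : Irreducible p) : False := by
  obtain ⟨z, rfl⟩ := MvPolynomial.C_surjective (R := E) ι p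
  by_cases hz : z = 0
  · exact hp.ne_zero (by rw [hz, map_zero])
  · exact hp.not_isUnit ((Ne.isUnit hz).map C)

/-- Only finitely many primes have no good class modulo `P ^ 2`. -/
theorem ff5_finite_bad [Fintype ι] [DecidableEq ι] {s : ℕ} (b : Module.Basis (Fin s) ℤ (𝓞 E))
    {T : Type} [Fintype T] (g G : T → MvPolynomial ι (𝓞 E))
    (hg : ∀ t, Irreducible (MvPolynomial.map (algebraMap (𝓞 E) E) (g t)))
    (hgG : ∀ t, ¬ MvPolynomial.map (algebraMap (𝓞 E) E) (g t) ∣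
      MvPolynomial.map (algebraMap (𝓞 E) E) (G t)) {m₀ : 𝓞 E} (hm₀ : m₀ ≠ 0)
    (Ω : ∀ P : HeightOneSpectrum (𝓞 E), Set (ι → 𝓞 E ⧸ P.asIdeal ^ 2))
    (hΩ : ∀ (P : HeightOneSpectrum (𝓞 E)) (a : ι → 𝓞 E), m₀ ∉ P.asIdeal →
      (fun i => Ideal.Quotient.mk (P.asIdeal ^ 2) (a i)) ∉ Ω P →
        ∃ t, eval a (g t) ∈ P.asIdeal ∧ eval a (G t) ∈ P.asIdeal) :
    ∃ (β : HeightOneSpectrum (𝓞 E) → ℝ) (Δ₂ : ℝ) (B : Finset (HeightOneSpectrum (𝓞 E))),
      (∀ P, 0 < β P) ∧ (∀ P, β P ≤ 1) ∧ 0 < Δ₂ ∧ HasProd β Δ₂ ∧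
      ∀ P, P ∉ B → (Nat.card (Ω P) : ℝ) / Nat.card (ι → 𝓞 E ⧸ P.asIdeal ^ 2) = β P := by
  classical
  have hfin : ∀ P : HeightOneSpectrum (𝓞 E), Finite (𝓞 E ⧸ P.asIdeal ^ 2) := fun P =>
    ff5_finite_quot P 2
  have hcpos : ∀ P : HeightOneSpectrum (𝓞 E), 0 < Nat.card (ι → 𝓞 E ⧸ P.asIdeal ^ 2) := by
    intro P
    have := hfin P
    exact Nat.card_pos
  let Ω' : ∀ P : HeightOneSpectrum (𝓞 E), Set (ι → 𝓞 E ⧸ P.asIdeal ^ 2) := fun P =>
    if (Ω P).Nonempty then Ω P else {0}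
  have hne : ∀ P, (Ω' P).Nonempty := by
    intro P
    by_cases h : (Ω P).Nonempty
    · rw [show Ω' P = Ω P from if_pos h]
      exact h
    · rw [show Ω' P = {0} from if_neg h]
      exact Set.singleton_nonempty 0
  have hsub : ∀ P, Ω P ⊆ Ω' P := by
    intro P x hx
    rw [show Ω' P = Ω P from if_pos ⟨x, hx⟩]
    exact hx
  obtain ⟨Δ₂, h1, -, h3⟩ := density_exp b g G hg hgG hm₀ (fun _ => 2) (by simp) Ω'
    (fun P a hP _ ha => hΩ P a hP fun h => ha (hsub P h))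
  have hmem := fun P => ff5_share_mem P 2 (Ω' P)
  have hβ0 : ∀ P, 0 < (Nat.card (Ω' P) : ℝ) / Nat.card (ι → 𝓞 E ⧸ P.asIdeal ^ 2) := by
    intro P
    have := hfin P
    have : Nonempty (Ω' P) := (hne P).to_subtype
    have h : 0 < Nat.card (Ω' P) := Nat.card_pos
    exact div_pos (by exact_mod_cast h) (by exact_mod_cast hcpos P)
  have hΔ : 0 < Δ₂ := h3 hne
  have hB : {P : HeightOneSpectrum (𝓞 E) | ¬ (Ω P).Nonempty}.Finite := by
    rcases isEmpty_or_nonempty ι with hι | hι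
    · refine (Ideal.finite_factors (I := Ideal.span {m₀}) ?_).subset fun P hP => ?_
      · rw [Ne, Ideal.zero_eq_bot, Ideal.span_singleton_eq_bot]
        exact hm₀
      · rw [Set.mem_ofPred_eq, Ideal.dvd_span_singleton]
        by_contra h
        obtain ⟨t, -⟩ := hΩ P (fun _ => 0) h fun h' => hP ⟨_, h'⟩
        exact ff5_nonempty (hg t)
    · refine (ff5_finite (fun P => (hmem P).1) (fun P => (hmem P).2) h1 hΔ).subset fun P hP => ?_
      have := hfin P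
      have h4 : Nat.card (Ω' P) = 1 := by
        rw [show Ω' P = {0} from if_neg hP]
        simp
      have h5 : 2 ≤ Nat.card (ι → 𝓞 E ⧸ P.asIdeal ^ 2) := by
        have : Nontrivial (𝓞 E ⧸ P.asIdeal ^ 2) := by
          refine Ideal.Quotient.nontrivial_iff.2 fun h => ?_
          exact P.isPrime.ne_top (top_le_iff.1 (h ▸ Ideal.pow_le_self two_ne_zero))
        have h6 : 1 < Nat.card (ι → 𝓞 E ⧸ P.asIdeal ^ 2) := Finite.one_lt_card
        omega
      rw [Set.mem_ofPred_eq, h4, Nat.cast_one]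
      exact one_div_le_one_div_of_le (by norm_num) (by exact_mod_cast h5)
  refine ⟨_, Δ₂, hB.toFinset, hβ0, fun P => (hmem P).2, hΔ, h1, fun P hP => ?_⟩
  rw [hB.mem_toFinset, Set.mem_ofPred_eq, not_not] at hP
  rw [show Ω' P = Ω P from if_pos hP]

/-- TASK F5: **the local-global principle for regular models in families**. -/
theorem families_lg {s : ℕ} (b : Module.Basis (Fin s) ℤ (𝓞 E)) [Fintype ι] [DecidableEq ι]
    (J : HomIdeal (MvPolynomial ι (𝓞 E)) (m + c + 1)) (h1 : GenSmooth J) (h2 : NodalCodim J) :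
    ∃ Δ : ℝ, HasProd (locDens J) Δ ∧ ((∀ P : HeightOneSpectrum (𝓞 E), 0 < locDens J P) → 0 < Δ) ∧
      Δ ≤ lowerDens b fun a => GenFibreSmooth (fib J a) ∧ HasModel (fib J a) := by
  classical
  obtain ⟨g, G, hrel, hnod⟩ := h2
  obtain ⟨D, hD, hgen⟩ := exists_generic h1
  obtain ⟨m₀, hm₀, hnod'⟩ := exists_nodal hnod
  obtain ⟨T, hT, g', G', m₁, hm₁, hirr, hndvd, hpair⟩ := exists_irred_pairs g G hrel
  have hm : m₀ * m₁ ≠ 0 := mul_ne_zero hm₀ hm₁
  have hbad : ∀ (P : HeightOneSpectrum (𝓞 E)) (a : ι → 𝓞 E), m₀ * m₁ ∉ P.asIdeal →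
      ¬ LocOK P J a → ∃ t, eval a (g' t) ∈ P.asIdeal ∧ eval a (G' t) ∈ P.asIdeal := by
    intro P a hP ha
    have hP0 : m₀ ∉ P.asIdeal := fun h => hP (Ideal.mul_mem_right _ _ h)
    have hP1 : m₁ ∉ P.asIdeal := fun h => hP (Ideal.mul_mem_left _ _ h)
    have h3 : ¬ (eval a g ∉ P.asIdeal ∨ eval a G ∉ P.asIdeal) := fun h4 =>
      ha (Or.inl (hnod' P hP0 a h4))
    push Not at h3
    exact hpair P hP1 a h3.1 h3.2
  obtain ⟨β, Δ₂, B, hβ0, hβ1, hΔ₂, hβ, hB⟩ := ff5_finite_bad b g' G' hirr hndvd hm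
    (fun P => {x | LocGood J P 2 x}) fun P a hP ha => hbad P a hP fun h => ha h.locGood
  have hc := fun (k : ℕ) (P : HeightOneSpectrum (𝓞 E)) =>
    ff5_share_mem P k {x : ι → 𝓞 E ⧸ P.asIdeal ^ k | LocGood J P k x}
  have hc0 : ∀ k P, 0 ≤ goodShare J k P := fun k P => (hc k P).1
  have hc1 : ∀ k P, goodShare J k P ≤ 1 := fun k P => (hc k P).2
  have hsup : ∀ P, locDens J P = ⨆ k, goodShare J k P := fun P => rfl
  refine ⟨⨅ S : Finset (HeightOneSpectrum (𝓞 E)), ∏ P ∈ S, locDens J P, ?_, ?_, ?_⟩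
  · exact ff5_hasProd (fun P => (ff5_sup_mem hc0 hc1 P).1) fun P => (ff5_sup_mem hc0 hc1 P).2
  · exact fun h => ff5_pos hc0 hc1 hβ0 hβ1 hB hΔ₂ hβ h
  refine le_of_forall_pos_le_add fun ε hε => ?_
  obtain ⟨F, k, hk, hlow⟩ := ff5_approx hc0 hc1 hβ0 hβ1 hB hΔ₂ hβ (half_pos hε)
  obtain ⟨Δ', hprod, hlim, -⟩ := density_exp b g' G' hirr hndvd hm k
    (F.finite_toSet.subset fun P hP => by
      by_contra h
      exact hP (hk P h))
    (fun P => {x | LocGood J P (k P) x})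
    (fun P a hP hkP ha => hbad P a hP fun h => ha (h.locGood' hkP))
  have hΔ' : (⨅ S : Finset (HeightOneSpectrum (𝓞 E)), ∏ P ∈ S, locDens J P) - ε / 2 ≤ Δ' :=
    ge_of_tendsto' (show Tendsto _ _ _ from hprod) fun S => hlow S
  have h3 := ff4_tendsto hlim (UD_eval_eq_zero b hD)
    (S := fun u : ι × Fin s → ℤ => (∀ P, redk b k P u ∈ {x | LocGood J P (k P) x}) ∧
      eval (coeffs b u) D ≠ 0)
    (fun u hu => by
      by_cases hDu : eval (coeffs b u) D = 0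
      · exact Or.inr hDu
      · exact Or.inl ⟨hu, hDu⟩)
    fun u hu => hu.1
  have hmod : ∀ u : ι × Fin s → ℤ, ((∀ P, redk b k P u ∈ {x | LocGood J P (k P) x}) ∧
      eval (coeffs b u) D ≠ 0) → GenFibreSmooth (fib J (coeffs b u)) ∧
        HasModel (fib J (coeffs b u)) := fun u hu => ⟨hgen _ hu.2,
    hasModel_of_forall_hasModelAt (hgen _ hu.2) fun P => hu.1 P _ (fun _ => rfl) (hgen _ hu.2)⟩
  have hco : IsCoboundedUnder (· ≥ ·) atTop fun H : ℕ =>
      Bert.proportion b (fun a => GenFibreSmooth (fib J a) ∧ HasModel (fib J a)) H := by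
    refine IsBoundedUnder.isCoboundedUnder_ge ⟨1, ?_⟩
    rw [eventually_map]
    refine Eventually.of_forall fun H => ?_
    rw [ff4_proportion]
    exact ff4_prop_le_one _ H
  have h4 : Δ' - ε / 2 ≤ lowerDens b fun a => GenFibreSmooth (fib J a) ∧ HasModel (fib J a) := by
    refine le_liminf_of_le hco ?_
    filter_upwards [h3.eventually (lt_mem_nhds (show Δ' - ε / 2 < Δ' by linarith))] with H h5
    refine h5.le.trans ?_
    rw [ff4_proportion]
    exact prop_mono hmod H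
  linarith

end Fsec

end Pool.Agent.Lib.MP_6a3dac_ag.Fam
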