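import Pool.Agent.Lib.MP_6a3dac_ag.Fam.F5

/-!
# Upper bounds for the density of the members with regular models
-/

set_option autoImplicit false

namespace Pool.Agent.Lib.MP_6a3dac_ag.Fam

open MvPolynomial CategoryTheory Limits AlgebraicGeometry NumberField IsDedekindDomain Filter
open IsLocalRing Topology
open Pool.Agent.Lib.MP_6a3dac_ag.DNF Pool.Agent.Lib.MP_6a3dac_ag.Bert
open Pool.Agent.Lib.MP_6a3dac_ag.Maj

section Prod

variable {I : Type}

/-- The finite products of the infima are approximated by products with suitable exponents. -/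
theorem ff6_approx {c : ℕ → I → ℝ} (hc0 : ∀ k P, 0 ≤ c k P) (hc1 : ∀ k P, c k P ≤ 1)
    (F : Finset I) {η : ℝ} (hη : 0 < η) :
    ∃ k : I → ℕ, ∏ P ∈ F, c (k P) P ≤ ∏ P ∈ F, (⨅ k, c k P) + η := by
  classical
  have hbdd : ∀ P, BddBelow (Set.range fun k => c k P) := by
    intro P
    refine ⟨0, ?_⟩
    rintro _ ⟨k, rfl⟩
    exact hc0 k P
  have h0 : ∀ P, 0 ≤ ⨅ k, c k P := fun P => le_ciInf fun k => hc0 k P
  have hk : ∀ P, ∃ k, c k P < (⨅ k, c k P) + η / (F.card + 1) := fun P =>
    exists_lt_of_ciInf_lt (by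
      have : 0 < η / (F.card + 1) := by positivity
      linarith)
  choose k hk using hk
  refine ⟨k, ?_⟩
  have e1 := ff5_prod_sub (α := fun P => c (k P) P) (c := fun P => ⨅ k, c k P) h0
    (fun P => hc1 _ P) (fun P => ciInf_le (hbdd P) (k P)) F
  have e2 : ∑ P ∈ F, (c (k P) P - ⨅ k, c k P) ≤ ∑ _P ∈ F, η / (F.card + 1) :=
    Finset.sum_le_sum fun P _ => by linarith [hk P]
  rw [Finset.sum_const, nsmul_eq_mul] at e2
  have e3 : (F.card : ℝ) * (η / (F.card + 1)) ≤ η := by
    rw [mul_div_assoc', div_le_iff₀ (by positivity)]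
    nlinarith
  linarith

end Prod

section Fsec

variable {E : Type} [Field E] [NumberField E] {ι : Type} {m c : ℕ}

/-- Some fibre of the family over a point with the coordinates in the residue classes `x` modulo
`P ^ k` is not smooth generically or has a regular model near `P`. -/
def LocSome (J : HomIdeal (MvPolynomial ι (𝓞 E)) (m + c + 1)) (P : HeightOneSpectrum (𝓞 E))
    (k : ℕ) (x : ι → 𝓞 E ⧸ P.asIdeal ^ k) : Prop :=
  ∃ a : ι → 𝓞 E, (∀ i, Ideal.Quotient.mk (P.asIdeal ^ k) (a i) = x i) ∧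
    (GenFibreSmooth (fib J a) →
      HasModelAt E P (hProjTo (bc (algebraMap (𝓞 E) E) (fib J a))))

/-- The outer local density at `P`: the measure of the closure of the set of the points of the
affine space over the completion of `𝓞 E` at `P` such that the fibre is not smooth generically or
has a regular model near `P`. -/
noncomputable def outDens (J : HomIdeal (MvPolynomial ι (𝓞 E)) (m + c + 1))
    (P : HeightOneSpectrum (𝓞 E)) : ℝ :=
  ⨅ k : ℕ, (Nat.card {x : ι → 𝓞 E ⧸ P.asIdeal ^ k // LocSome J P k x} : ℝ) /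
    Nat.card (ι → 𝓞 E ⧸ P.asIdeal ^ k)

/-- The upper density of the `a` in `𝓞_E^ι` with the property `S`. -/
noncomputable def upperDens {s : ℕ} [Fintype ι] [DecidableEq ι]
    (b : Module.Basis (Fin s) ℤ (𝓞 E)) (S : (ι → 𝓞 E) → Prop) : ℝ :=
  limsup (fun H : ℕ => Bert.proportion b S H) atTop

theorem HasModel.hasModelAt {J : HomIdeal (𝓞 E) (m + c + 1)} (h : HasModel J)
    (P : HeightOneSpectrum (𝓞 E)) :
    HasModelAt E P (hProjTo (bc (algebraMap (𝓞 E) E) J)) := by
  obtain ⟨Y, g, hp, hf, hreg, e, he⟩ := h.2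
  exact ⟨⊤, Y, g, trivial, inferInstance, inferInstance, fun y _ => hreg y, e, he⟩

/-- TASK F6: **the upper bound for the density**. -/
theorem families_upper {s : ℕ} (b : Module.Basis (Fin s) ℤ (𝓞 E)) [Fintype ι] [DecidableEq ι]
    (J : HomIdeal (MvPolynomial ι (𝓞 E)) (m + c + 1)) :
    ∃ Δ : ℝ, HasProd (outDens J) Δ ∧
      (upperDens b fun a => GenFibreSmooth (fib J a) ∧ HasModel (fib J a)) ≤ Δ := by
  classical
  let d : ℕ → HeightOneSpectrum (𝓞 E) → ℝ := fun k P =>
    (Nat.card {x : ι → 𝓞 E ⧸ P.asIdeal ^ k // LocSome J P k x} : ℝ) /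
      Nat.card (ι → 𝓞 E ⧸ P.asIdeal ^ k)
  have hc := fun (k : ℕ) (P : HeightOneSpectrum (𝓞 E)) =>
    ff5_share_mem P k {x : ι → 𝓞 E ⧸ P.asIdeal ^ k | LocSome J P k x}
  have hc0 : ∀ k P, 0 ≤ d k P := fun k P => (hc k P).1
  have hc1 : ∀ k P, d k P ≤ 1 := fun k P => (hc k P).2
  have hbdd : ∀ P, BddBelow (Set.range fun k => d k P) := by
    intro P
    refine ⟨0, ?_⟩
    rintro _ ⟨k, rfl⟩
    exact hc0 k P
  have h0 : ∀ P, 0 ≤ outDens J P := fun P => le_ciInf fun k => hc0 k P
  have h1 : ∀ P, outDens J P ≤ 1 := fun P => (ciInf_le (hbdd P) 0).trans (hc1 0 P)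
  refine ⟨_, ff5_hasProd h0 h1, le_ciInf fun F => ?_⟩
  refine le_of_forall_pos_le_add fun η hη => ?_
  obtain ⟨k, hk⟩ := ff6_approx hc0 hc1 F hη
  refine le_trans ?_ hk
  have hlim := fe2k_tendsto_prop_red b k F fun P => {x | LocSome J P (k P) x}
  have hle : ∀ H, Bert.proportion b (fun a => GenFibreSmooth (fib J a) ∧ HasModel (fib J a)) H ≤
      Sys.prop (fun u => ∀ P ∈ F, redk b k P u ∈ {x | LocSome J P (k P) x}) H := by
    intro H
    rw [ff4_proportion]
    exact prop_mono (fun u hu P _ => ⟨coeffs b u, fun _ => rfl, fun _ => hu.2.hasModelAt P⟩) H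
  have h3 : (upperDens b fun a => GenFibreSmooth (fib J a) ∧ HasModel (fib J a)) ≤ limsup (fun H =>
      Sys.prop (fun u => ∀ P ∈ F, redk b k P u ∈ {x | LocSome J P (k P) x}) H) atTop := by
    refine limsup_le_limsup (Eventually.of_forall hle) ?_ ?_
    · refine IsBoundedUnder.isCoboundedUnder_le ⟨0, ?_⟩
      rw [eventually_map]
      refine Eventually.of_forall fun H => ?_
      rw [ff4_proportion]
      exact prop_nonneg _ H
    · exact hlim.isBoundedUnder_le
  rw [hlim.limsup_eq] at h3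
  exact h3

/-- **The local-global principle with lower and upper bounds**: the members of the family with a
regular model have lower density at least the product of the inner local densities and upper
density at most the product of the outer local densities; if these are equal, the density exists
and is equal to the product of the local densities. -/
theorem families_density {s : ℕ} (b : Module.Basis (Fin s) ℤ (𝓞 E)) [Fintype ι] [DecidableEq ι]
    (J : HomIdeal (MvPolynomial ι (𝓞 E)) (m + c + 1)) (h1 : GenSmooth J) (h2 : NodalCodim J) :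
    ∃ Δ Δ' : ℝ, HasProd (locDens J) Δ ∧ HasProd (outDens J) Δ' ∧
      ((∀ P : HeightOneSpectrum (𝓞 E), 0 < locDens J P) → 0 < Δ) ∧
      Δ ≤ (lowerDens b fun a => GenFibreSmooth (fib J a) ∧ HasModel (fib J a)) ∧
      (upperDens b fun a => GenFibreSmooth (fib J a) ∧ HasModel (fib J a)) ≤ Δ' ∧
      ((∀ P : HeightOneSpectrum (𝓞 E), locDens J P = outDens J P) →
        Tendsto (fun H : ℕ => Bert.proportion b
          (fun a => GenFibreSmooth (fib J a) ∧ HasModel (fib J a)) H) atTop (𝓝 Δ)) := by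
  obtain ⟨Δ, e1, e2, e3⟩ := families_lg b J h1 h2
  obtain ⟨Δ', e4, e5⟩ := families_upper b J
  refine ⟨Δ, Δ', e1, e4, e2, e3, e5, fun h => ?_⟩
  have h3 : Δ' = Δ := by
    rw [show locDens J = outDens J from funext h] at e1
    exact e4.unique e1
  rw [h3] at e5
  refine tendsto_of_le_liminf_of_limsup_le e3 e5 ?_ ?_
  · refine ⟨1, ?_⟩
    rw [eventually_map]
    refine Eventually.of_forall fun H => ?_
    rw [ff4_proportion]
    exact ff4_prop_le_one _ H
  · refine ⟨0, ?_⟩
    rw [eventually_map]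
    refine Eventually.of_forall fun H => ?_
    rw [ff4_proportion]
    exact prop_nonneg _ H

/-- The lower and the upper bound. -/
theorem families_two {s : ℕ} (b : Module.Basis (Fin s) ℤ (𝓞 E)) [Fintype ι] [DecidableEq ι]
    (J : HomIdeal (MvPolynomial ι (𝓞 E)) (m + c + 1)) (h1 : GenSmooth J) (h2 : NodalCodim J) :
    ∃ Δ Δ' : ℝ, HasProd (locDens J) Δ ∧ HasProd (outDens J) Δ' ∧
      ((∀ P : HeightOneSpectrum (𝓞 E), 0 < locDens J P) → 0 < Δ) ∧
      Δ ≤ (lowerDens b fun a => GenFibreSmooth (fib J a) ∧ HasModel (fib J a)) ∧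
      (upperDens b fun a => GenFibreSmooth (fib J a) ∧ HasModel (fib J a)) ≤ Δ' := by
  obtain ⟨Δ, Δ', e1, e2, e3, e4, e5, -⟩ := families_density b J h1 h2
  exact ⟨Δ, Δ', e1, e2, e3, e4, e5⟩

end Fsec

end Pool.Agent.Lib.MP_6a3dac_ag.Fam
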