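import Pool.Agent.Lib.MP_6a3dac_ag.Mg.G041
import Pool.Agent.Lib.MP_6a3dac_ag.Mg.G042
import Pool.Agent.Lib.MP_6a3dac_ag.Fam.F2

/-!
# The family of the sections
-/

set_option autoImplicit false

namespace Pool.Agent.Lib.MP_6a3dac_ag.Fam

open MvPolynomial NumberField
open Pool.Agent.Lib.MP_6a3dac_ag.DNF Pool.Agent.Lib.MP_6a3dac_ag.Bert

variable {E : Type} [Field E] [NumberField E] {m c r : ℕ}

/-- The residue field of a prime ideal. -/
theorem fs6_exists_field {B : Type} [CommRing B] {𝔮 : Ideal B} (h𝔮 : 𝔮.IsPrime) :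
    ∃ (L : Type) (_ : Field L) (φ : B →+* L), ∀ q, φ q = 0 ↔ q ∈ 𝔮 := by
  classical
  refine ⟨FractionRing (B ⧸ 𝔮), inferInstance,
    (algebraMap (B ⧸ 𝔮) (FractionRing (B ⧸ 𝔮))).comp (Ideal.Quotient.mk 𝔮), fun q => ?_⟩
  rw [RingHom.comp_apply, IsFractionRing.to_map_eq_zero_iff, Ideal.Quotient.eq_zero_iff_mem]

/-- The points of the family of the sections in characteristic zero whose image in the space of the
parameters is the generic point of the hypersurface `p = 0` (or the generic point, if `p = 0`). -/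
theorem fs6_point (hr : 1 ≤ r) (I : HomIdeal (𝓞 E) (m + c + 1)) (hI : SmoothOfDim (m + r) I)
    {d : Fin r → ℕ} (hd : ∀ k, 1 ≤ d k) {i : Fin (m + c + 1)}
    {𝔮 : Ideal (MvPolynomial {l : Fin (m + c + 1) // l ≠ i}
      (MvPolynomial (Σ k, Mono (m + c) (d k)) (𝓞 E)))} (h𝔮 : 𝔮.IsPrime)
    (hJ : dId (secFam I d) i ≤ 𝔮) (hz : ∀ z : 𝓞 E, C (C z) ∈ 𝔮 → z = 0)
    {p : MvPolynomial (Σ k, Mono (m + c) (d k)) (𝓞 E)} (hp : C p ∈ 𝔮)
    (hker : ∀ f : MvPolynomial (Σ k, Mono (m + c) (d k)) (𝓞 E), C f ∈ 𝔮 →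
      ∃ z : 𝓞 E, z ≠ 0 ∧ p ∣ C z * f) :
    NodalPt m (dId (secFam I d) i) 𝔮 ∧ (p = 0 → SmoothPt m (dId (secFam I d) i) 𝔮) := by
  classical
  obtain ⟨L, hL, φ, hφ⟩ := fs6_exists_field h𝔮
  have hchar : CharZero L := by
    apply charZero_of_inj_zero
    intro n hn
    by_contra hn0
    have h1 : φ (C (C (n : 𝓞 E))) = 0 := by
      rw [map_natCast, map_natCast, map_natCast]
      exact hn
    exact hn0 (Nat.cast_eq_zero.1 (hz _ ((hφ _).1 h1)))
  obtain ⟨U, hU, hT, hh⟩ := hI i (𝔮.comap (MvPolynomial.map C)) (Ideal.comap_isPrime _ _)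
    (by
      rw [← Ideal.map_le_iff_le_comap]
      exact le_trans (by rw [dId_secFam]; exact le_sup_left) hJ)
    (by
      intro z hz'
      rw [Ideal.mem_comap, map_C] at hz'
      exact hz z hz')
  have hξ : DerWith (φ.comp C) fun α => (φ.comp C) (pderiv α p) := by
    apply exists_derWith
    · exact (hφ _).2 hp
    · intro f hf
      obtain ⟨z, hz0, hdvd⟩ := hker f ((hφ _).1 hf)
      exact ⟨z, fun h1 => hz0 (hz z ((hφ _).1 h1)), hdvd⟩
  have h2 := point_of_derWith hr I hd φ hφ hJ U hU hT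
    (by rw [Ideal.mem_comap] at hh; exact hh) hξ
  refine ⟨h2.1, fun hp0 => h2.2 ?_⟩
  subst hp0
  funext α
  simp

/-- TASK S6 (a) -/
theorem sec_genSmooth (hr : 1 ≤ r) (I : HomIdeal (𝓞 E) (m + c + 1)) (hI : SmoothOfDim (m + r) I)
    {d : Fin r → ℕ} (hd : ∀ k, 1 ≤ d k) : GenSmooth (m := m) (c := c) (secFam I d) := by
  intro i 𝔮 h𝔮 hJ hc
  refine (fs6_point hr I hI hd h𝔮 hJ (fun z hz => ?_) (p := 0) (by simp) ?_).2 rfl
  · exact (C_eq_zero).1 (hc _ hz)
  · intro f hf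
    exact ⟨1, one_ne_zero, by rw [hc f hf]; simp⟩

/-- TASK S6 (b) -/
theorem sec_nodalCodim (hr : 1 ≤ r) (I : HomIdeal (𝓞 E) (m + c + 1))
    (hI : SmoothOfDim (m + r) I) {d : Fin r → ℕ} (hd : ∀ k, 1 ≤ d k) :
    NodalCodim (m := m) (c := c) (secFam I d) := by
  classical
  obtain ⟨g, G, hgG, hrel⟩ := exists_coprime_pair (E := E)
    (fun i : Fin (m + c + 1) => (f2_bad m (dId (secFam I d) i)).comap
      (C : MvPolynomial (Σ k, Mono (m + c) (d k)) (𝓞 E) →+* _)) (by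
    intro i p hp
    by_contra hcon
    push Not at hcon
    have hunit : ∀ z : 𝓞 E, z ≠ 0 → ¬ MvPolynomial.map (algebraMap (𝓞 E) E) p ∣
        MvPolynomial.map (algebraMap (𝓞 E) E) (C z) := by
      intro z hz hdvd
      have hu : IsUnit (MvPolynomial.map (algebraMap (𝓞 E) E)
          (C z : MvPolynomial (Σ k, Mono (m + c) (d k)) (𝓞 E))) := by
        rw [map_C]
        refine IsUnit.map C (IsUnit.mk0 _ ?_)
        exact (map_ne_zero_iff _ (FaithfulSMul.algebraMap_injective (𝓞 E) E)).2 hz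
      rcases hp with rfl | hp
      · rw [map_zero, zero_dvd_iff] at hdvd
        exact hu.ne_zero hdvd
      · exact hp.not_isUnit (isUnit_of_dvd_unit hdvd hu)
    let M : Submonoid (MvPolynomial {l : Fin (m + c + 1) // l ≠ i}
        (MvPolynomial (Σ k, Mono (m + c) (d k)) (𝓞 E))) :=
      { carrier := {y | ∃ f, ¬ MvPolynomial.map (algebraMap (𝓞 E) E) p ∣
          MvPolynomial.map (algebraMap (𝓞 E) E) f ∧ y = C f}
        one_mem' := ⟨1, by
          have := hunit 1 one_ne_zero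
          rwa [C_1] at this, by simp⟩
        mul_mem' := by
          rintro _ _ ⟨f, hf, rfl⟩ ⟨f', hf', rfl⟩
          refine ⟨f * f', ?_, by rw [C_mul]⟩
          rw [map_mul]
          rcases hp with rfl | hp
          · rw [map_zero, zero_dvd_iff] at hf hf' ⊢
            exact mul_ne_zero hf hf'
          · intro hdvd
            rcases hp.prime.dvd_or_dvd hdvd with h1 | h1
            · exact hf h1
            · exact hf' h1 }
    have hd' : Disjoint ((f2_bad m (dId (secFam I d) i) : Ideal _) : Set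
        (MvPolynomial {l : Fin (m + c + 1) // l ≠ i}
          (MvPolynomial (Σ k, Mono (m + c) (d k)) (𝓞 E)))) (M : Set _) := by
      rw [Set.disjoint_left]
      rintro _ hy ⟨f, hf, rfl⟩
      exact hf (hcon f hy)
    obtain ⟨𝔮, h𝔮, hle, hdis⟩ := Ideal.exists_le_prime_disjoint _ M hd'
    have hJ : dId (secFam I d) i ≤ 𝔮 := le_sup_left.trans hle
    have hmem : ∀ f : MvPolynomial (Σ k, Mono (m + c) (d k)) (𝓞 E), C f ∈ 𝔮 →
        MvPolynomial.map (algebraMap (𝓞 E) E) p ∣ MvPolynomial.map (algebraMap (𝓞 E) E) f := by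
      intro f hf
      by_contra h1
      exact Set.disjoint_left.1 hdis hf ⟨f, h1, rfl⟩
    have hz : ∀ z : 𝓞 E, C (C z) ∈ 𝔮 → z = 0 := by
      intro z hz
      by_contra h0
      exact hunit z h0 (hmem _ hz)
    obtain ⟨p', hp', hker⟩ := exists_principal (E := E) (𝔮.comap
      (C : MvPolynomial (Σ k, Mono (m + c) (d k)) (𝓞 E) →+* _)) (Ideal.comap_isPrime _ _) hp
      (fun f hf => hmem f hf)
    exact (f2_nodalPt_iff hJ).1 (fs6_point hr I hI hd h𝔮 hJ hz (p := p') hp'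
      (fun f hf => hker f hf)).1 hle)
  refine ⟨g, G, hrel, fun i 𝔮 h𝔮 hJ hz hor => (f2_nodalPt_iff hJ).2 fun hle => ?_⟩
  rcases hor with h1 | h1
  · exact h1 (hle (hgG i).1)
  · exact h1 (hle (hgG i).2)

end Pool.Agent.Lib.MP_6a3dac_ag.Fam
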